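import Pool.Agent.H31.CN.T3

/-!
# Weighted sums of functions of `y / n`
-/

set_option autoImplicit false

open MeasureTheory Set Filter Topology

namespace Pool.Agent.H63.CN

/-- the operator `f ↦ ∑_{n ≤ y} (a n / n) f (y / n)` -/
noncomputable def Lam (a : ℕ → ℝ) (f : ℝ → ℝ) (y : ℝ) : ℝ :=
  ∑ n ∈ Finset.Icc 1 ⌊y⌋₊, a n / n * f (y / n)

/-- Dirichlet convolution -/
noncomputable def cv (a b : ℕ → ℝ) (n : ℕ) : ℝ := ∑ x ∈ n.divisorsAntidiagonal, a x.1 * b x.2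

lemma Lam_Lam (a b : ℕ → ℝ) (f : ℝ → ℝ) (y : ℝ) :
    Lam a (Lam b f) y = Lam (cv a b) f y := by
  unfold Lam cv
  have h1 : ∀ n : ℕ, ⌊y / n⌋₊ = ⌊y⌋₊ / n := fun n => Nat.floor_div_natCast y n
  simp_rw [h1, Finset.mul_sum, Finset.sum_div, Finset.sum_mul]
  rw [Finset.sum_sigma', Finset.sum_sigma']
  refine Finset.sum_bij' (fun p _ => ⟨p.1 * p.2, (p.1, p.2)⟩) (fun p _ => ⟨p.2.1, p.2.2⟩)
    ?_ ?_ ?_ ?_ ?_
  · rintro ⟨n, m⟩ h
    simp only [Finset.mem_sigma, Finset.mem_Icc] at h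
    obtain ⟨⟨h2, h3⟩, h4, h5⟩ := h
    rw [Nat.le_div_iff_mul_le (by omega)] at h5
    simp only [Finset.mem_sigma, Finset.mem_Icc, Nat.mem_divisorsAntidiagonal]
    have h6 : 1 ≤ n * m := Nat.mul_pos h2 h4
    exact ⟨⟨h6, by rw [mul_comm]; exact h5⟩, trivial, by omega⟩
  · rintro ⟨N, n, m⟩ h
    simp only [Finset.mem_sigma, Finset.mem_Icc, Nat.mem_divisorsAntidiagonal] at h
    obtain ⟨⟨h2, h3⟩, h4, h5⟩ := h
    simp only [Finset.mem_sigma, Finset.mem_Icc]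
    have h6 : n ≠ 0 := by rintro rfl; simp at h4; omega
    have h7 : m ≠ 0 := by rintro rfl; simp at h4; omega
    refine ⟨⟨by omega, ?_⟩, by omega, ?_⟩
    · calc n ≤ n * m := Nat.le_mul_of_pos_right _ (by omega)
        _ = N := h4
        _ ≤ _ := h3
    · rw [Nat.le_div_iff_mul_le (by omega), mul_comm, h4]
      exact h3
  · rintro ⟨n, m⟩ h
    rfl
  · rintro ⟨N, n, m⟩ h
    simp only [Finset.mem_sigma, Finset.mem_Icc, Nat.mem_divisorsAntidiagonal] at h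
    obtain ⟨⟨h2, h3⟩, h4, h5⟩ := h
    subst h4
    rfl
  · rintro ⟨n, m⟩ h
    simp only [Finset.mem_sigma, Finset.mem_Icc] at h
    obtain ⟨⟨h2, h3⟩, h4, h5⟩ := h
    have h6 : (n : ℝ) ≠ 0 := by exact_mod_cast (by omega : n ≠ 0)
    have h7 : (m : ℝ) ≠ 0 := by exact_mod_cast (by omega : m ≠ 0)
    push_cast
    rw [div_div]
    field_simp

lemma Lam_congr {a : ℕ → ℝ} {f g : ℝ → ℝ} {y : ℝ} (h : ∀ x, 1 ≤ x → f x = g x) :
    Lam a f y = Lam a g y := by
  unfold Lam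
  refine Finset.sum_congr rfl fun n hn => ?_
  obtain ⟨h1, h2⟩ := Finset.mem_Icc.1 hn
  have h3 : (0 : ℝ) < n := by exact_mod_cast h1
  rw [h]
  rw [le_div_iff₀ h3, one_mul]
  exact (Nat.le_floor_iff' (by omega)).1 h2

lemma Lam_add (a : ℕ → ℝ) (f g : ℝ → ℝ) (y : ℝ) :
    Lam a (fun x => f x + g x) y = Lam a f y + Lam a g y := by
  unfold Lam
  rw [← Finset.sum_add_distrib]
  exact Finset.sum_congr rfl fun n _ => by ring

lemma Lam_smul (a : ℕ → ℝ) (c : ℝ) (f : ℝ → ℝ) (y : ℝ) :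
    Lam a (fun x => c * f x) y = c * Lam a f y := by
  unfold Lam
  rw [Finset.mul_sum]
  exact Finset.sum_congr rfl fun n _ => by ring

lemma Lam_sum {ι : Type*} (a : ℕ → ℝ) (s : Finset ι) (f : ι → ℝ → ℝ) (y : ℝ) :
    Lam a (fun x => ∑ i ∈ s, f i x) y = ∑ i ∈ s, Lam a (f i) y := by
  unfold Lam
  rw [Finset.sum_comm]
  exact Finset.sum_congr rfl fun n _ => by rw [Finset.mul_sum]

/-- pointwise bound -/
lemma Lam_bound {a : ℕ → ℝ} {f g : ℝ → ℝ} {y : ℝ} (ha : ∀ n, |a n| ≤ 1)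
    (h : ∀ x, 1 ≤ x → |f x| ≤ g x) :
    |Lam a f y| ≤ ∑ n ∈ Finset.Icc 1 ⌊y⌋₊, g (y / n) / n := by
  unfold Lam
  refine (Finset.abs_sum_le_sum_abs _ _).trans (Finset.sum_le_sum fun n hn => ?_)
  obtain ⟨h1, h2⟩ := Finset.mem_Icc.1 hn
  have h3 : (0 : ℝ) < n := by exact_mod_cast h1
  have h4 : 1 ≤ y / n := by
    rw [le_div_iff₀ h3, one_mul]
    exact (Nat.le_floor_iff' (by omega)).1 h2
  have h5 := h _ h4
  rw [abs_mul, abs_div, abs_of_pos h3]
  have h6 : 0 ≤ g (y / n) := (abs_nonneg _).trans h5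
  calc |a n| / n * |f (y / n)| ≤ 1 / n * g (y / n) := by
        gcongr
        exact ha n
    _ = _ := by ring

lemma sum_inv_le {y : ℝ} (hy : 1 ≤ y) :
    ∑ n ∈ Finset.Icc 1 ⌊y⌋₊, 1 / (n : ℝ) ≤ 1 + Real.log y := by
  have h1 : ∑ n ∈ Finset.Icc 1 ⌊y⌋₊, 1 / (n : ℝ) = (harmonic ⌊y⌋₊ : ℝ) := by
    rw [harmonic_eq_sum_Icc]
    push_cast
    simp
  rw [h1]
  exact harmonic_floor_le_one_add_log y hy

lemma Lam_bound_const {a : ℕ → ℝ} {f : ℝ → ℝ} {y C : ℝ} (ha : ∀ n, |a n| ≤ 1)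
    (hy : 1 ≤ y) (hC : 0 ≤ C) (h : ∀ x, 1 ≤ x → |f x| ≤ C) :
    |Lam a f y| ≤ C * (1 + Real.log y) := by
  refine (Lam_bound (g := fun _ => C) ha h).trans ?_
  calc ∑ n ∈ Finset.Icc 1 ⌊y⌋₊, C / (n : ℝ) = C * ∑ n ∈ Finset.Icc 1 ⌊y⌋₊, 1 / (n : ℝ) := by
        rw [Finset.mul_sum]
        exact Finset.sum_congr rfl fun n _ => by ring
    _ ≤ _ := by
        gcongr
        exact sum_inv_le hy

lemma Lam_bound_inv {a : ℕ → ℝ} {f : ℝ → ℝ} {y C : ℝ} (ha : ∀ n, |a n| ≤ 1)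
    (hy : 1 ≤ y) (hC : 0 ≤ C) (h : ∀ x, 1 ≤ x → |f x| ≤ C / x) : |Lam a f y| ≤ C := by
  refine (Lam_bound (g := fun x => C / x) ha h).trans ?_
  have hy0 : 0 < y := by linarith
  calc ∑ n ∈ Finset.Icc 1 ⌊y⌋₊, C / (y / n) / (n : ℝ)
      = ∑ n ∈ Finset.Icc 1 ⌊y⌋₊, C / y := by
        refine Finset.sum_congr rfl fun n hn => ?_
        have h3 : (n : ℝ) ≠ 0 := by
          have := (Finset.mem_Icc.1 hn).1
          exact_mod_cast (by omega : n ≠ 0)
        field_simp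
    _ = ⌊y⌋₊ * (C / y) := by rw [Finset.sum_const, Nat.card_Icc, nsmul_eq_mul]; simp
    _ ≤ y * (C / y) := by
        gcongr
        exact Nat.floor_le hy0.le
    _ = C := by field_simp

/-! ### Integration -/

/-- powers of the logarithm -/
noncomputable def lg (k : ℕ) (x : ℝ) : ℝ := Real.log x ^ k

lemma hasDerivAt_log_pow (k : ℕ) (c : ℝ) {m t : ℝ} (hm : 0 < m) (ht : 0 < t) :
    HasDerivAt (fun t => c * lg (k + 1) (t / m) / (k + 1)) (c * lg k (t / m) / t) t := by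
  have h1 : HasDerivAt (fun t : ℝ => t / m) (1 / m) t := (hasDerivAt_id t).div_const m
  have h2 : HasDerivAt (fun t : ℝ => Real.log (t / m)) ((t / m)⁻¹ * (1 / m)) t :=
    (Real.hasDerivAt_log (by positivity)).comp t h1
  have h3 := ((h2.pow (k + 1)).const_mul c).div_const ((k : ℝ) + 1)
  refine h3.congr_deriv ?_
  unfold lg
  push_cast
  field_simp

lemma cont_term (k : ℕ) (c : ℝ) {m : ℝ} (hm : 0 < m) {u v : ℝ} (hu : 0 < u) :
    ContinuousOn (fun t => c * lg k (t / m) / t) (Set.Icc u v) := by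
  intro t ht
  have ht0 : 0 < t := lt_of_lt_of_le hu ht.1
  have h1 : ContinuousAt (fun t : ℝ => Real.log (t / m)) t := by
    refine ContinuousAt.log (by fun_prop) (by positivity)
  have h2 : ContinuousAt (fun t => c * lg k (t / m) / t) t := by
    unfold lg
    exact (continuousAt_const.mul (h1.pow k)).div continuousAt_id ht0.ne'
  exact h2.continuousWithinAt

lemma int_log_pow (k : ℕ) (c : ℝ) {m u v : ℝ} (hm : 0 < m) (hu : 0 < u) (huv : u ≤ v) :
    IntervalIntegrable (fun t => c * lg k (t / m) / t) volume u v ∧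
    ∫ t in u..v, c * lg k (t / m) / t =
      c * lg (k + 1) (v / m) / (k + 1) - c * lg (k + 1) (u / m) / (k + 1) := by
  have hI : IntervalIntegrable (fun t => c * lg k (t / m) / t) volume u v := by
    apply ContinuousOn.intervalIntegrable
    rw [Set.uIcc_of_le huv]
    exact cont_term k c hm hu
  refine ⟨hI, intervalIntegral.integral_eq_sub_of_hasDerivAt
    (f := fun t => c * lg (k + 1) (t / m) / (k + 1)) (fun t ht => ?_) hI⟩
  rw [Set.uIcc_of_le huv] at ht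
  exact hasDerivAt_log_pow k c hm (lt_of_lt_of_le hu ht.1)

lemma int_one (k : ℕ) (c : ℝ) {m v : ℝ} (hm : 1 ≤ m) (hmv : m ≤ v) :
    IntervalIntegrable (fun t => (if m ≤ t then c * lg k (t / m) else 0) / t) volume 1 v ∧
    ∫ t in (1 : ℝ)..v, (if m ≤ t then c * lg k (t / m) else 0) / t =
      c * lg (k + 1) (v / m) / (k + 1) := by
  have hm0 : 0 < m := by linarith
  obtain ⟨h1, h2⟩ := int_log_pow k c hm0 hm0 hmv
  have e1 : Set.EqOn (fun t => (if m ≤ t then c * lg k (t / m) else 0) / t) (fun _ => 0)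
      (Set.Ioo 1 m) := by
    intro t ht
    simp only
    rw [if_neg (not_le.2 ht.2), zero_div]
  have e2 : Set.EqOn (fun t => (if m ≤ t then c * lg k (t / m) else 0) / t)
      (fun t => c * lg k (t / m) / t) (Set.Ioo m v) := by
    intro t ht
    simp only
    rw [if_pos ht.1.le]
  have i1 : IntervalIntegrable (fun t => (if m ≤ t then c * lg k (t / m) else 0) / t)
      volume 1 m := by
    rw [intervalIntegrable_iff_integrableOn_Ioo_of_le hm]
    exact (integrableOn_congr_fun e1 measurableSet_Ioo).2 integrableOn_zero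
  have i2 : IntervalIntegrable (fun t => (if m ≤ t then c * lg k (t / m) else 0) / t)
      volume m v := by
    rw [intervalIntegrable_iff_integrableOn_Ioo_of_le hmv] at h1 ⊢
    exact (integrableOn_congr_fun e2 measurableSet_Ioo).2 h1
  refine ⟨i1.trans i2, ?_⟩
  rw [← intervalIntegral.integral_add_adjacent_intervals i1 i2]
  have v1 : ∫ t in (1 : ℝ)..m, (if m ≤ t then c * lg k (t / m) else 0) / t = 0 := by
    rw [intervalIntegral.integral_of_le hm, integral_Ioc_eq_integral_Ioo,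
      setIntegral_congr_fun measurableSet_Ioo e1]
    simp
  have v2 : ∫ t in m..v, (if m ≤ t then c * lg k (t / m) else 0) / t =
      ∫ t in m..v, c * lg k (t / m) / t := by
    rw [intervalIntegral.integral_of_le hmv, intervalIntegral.integral_of_le hmv,
      integral_Ioc_eq_integral_Ioo, integral_Ioc_eq_integral_Ioo,
      setIntegral_congr_fun measurableSet_Ioo e2]
  rw [v1, v2, h2, zero_add, div_self hm0.ne']
  unfold lg
  simp

/-- integration raises the exponent of the logarithm -/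
lemma J_lam (a : ℕ → ℝ) (k : ℕ) {y : ℝ} (hy : 1 ≤ y) :
    IntervalIntegrable (fun t => Lam a (lg k) t / t) volume 1 y ∧
    ((k : ℝ) + 1) * ∫ t in (1 : ℝ)..y, Lam a (lg k) t / t = Lam a (lg (k + 1)) y := by
  have hy0 : 0 < y := by linarith
  have hmem : ∀ n ∈ Finset.Icc 1 ⌊y⌋₊, (1 : ℝ) ≤ n ∧ (n : ℝ) ≤ y := by
    intro n hn
    obtain ⟨h1, h2⟩ := Finset.mem_Icc.1 hn
    exact ⟨by exact_mod_cast h1, (Nat.le_floor_iff' (by omega)).1 h2⟩
  have heq : Set.EqOn (fun t => Lam a (lg k) t / t) (fun t => ∑ n ∈ Finset.Icc 1 ⌊y⌋₊,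
      (if (n : ℝ) ≤ t then a n / n * lg k (t / n) else 0) / t) (Set.uIcc 1 y) := by
    intro t ht
    rw [Set.uIcc_of_le hy] at ht
    simp only
    rw [← Finset.sum_div, ← Finset.sum_filter]
    congr 1
    unfold Lam
    refine Finset.sum_congr ?_ fun _ _ => rfl
    ext n
    rw [Finset.mem_filter, Finset.mem_Icc, Finset.mem_Icc]
    have ht0 : 0 ≤ t := by linarith [ht.1]
    constructor
    · rintro ⟨h1, h2⟩
      have h3 : (n : ℝ) ≤ t := (Nat.le_floor_iff' (by omega)).1 h2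
      exact ⟨⟨h1, h2.trans (Nat.floor_le_floor ht.2)⟩, h3⟩
    · rintro ⟨⟨h1, h2⟩, h3⟩
      exact ⟨h1, (Nat.le_floor_iff' (by omega)).2 h3⟩
  have hone := fun n (hn : n ∈ Finset.Icc 1 ⌊y⌋₊) =>
    int_one k (a n / n) (hmem n hn).1 (hmem n hn).2
  have hI : IntervalIntegrable (fun t => ∑ n ∈ Finset.Icc 1 ⌊y⌋₊,
      (if (n : ℝ) ≤ t then a n / n * lg k (t / n) else 0) / t) volume 1 y := by
    have := IntervalIntegrable.sum (μ := volume) (a := 1) (b := y) (Finset.Icc 1 ⌊y⌋₊)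
      (f := fun (n : ℕ) (t : ℝ) => (if (n : ℝ) ≤ t then a n / n * lg k (t / n) else 0) / t)
      (fun n hn => (hone n hn).1)
    refine this.congr (fun t _ => ?_)
    simp only [Finset.sum_apply]
  refine ⟨hI.congr fun t ht => (heq (Set.uIoc_subset_uIcc ht)).symm, ?_⟩
  rw [intervalIntegral.integral_congr heq,
    intervalIntegral.integral_finsetSum fun n hn => (hone n hn).1,
    Finset.sum_congr rfl fun n hn => (hone n hn).2, ← Finset.sum_div,
    mul_div_cancel₀ _ (by positivity)]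
  rfl

end Pool.Agent.H63.CN
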