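import Pool.Agent.H63.CN.Lam

/-!
# Module MU1: smoothed sums of the Möbius function
-/

set_option autoImplicit false

open MeasureTheory Set Filter Topology

namespace Pool.Agent.H63.CN

open Pool.Agent.H31.CN

/-! ### Expansions -/

lemma int_inv_sq {C u v : ℝ} (hu : 0 < u) (huv : u ≤ v) :
    IntervalIntegrable (fun t => C / t ^ 2) volume u v ∧
    ∫ t in u..v, C / t ^ 2 = C / u - C / v := by
  have hI : IntervalIntegrable (fun t => C / t ^ 2) volume u v := by
    apply ContinuousOn.intervalIntegrable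
    rw [Set.uIcc_of_le huv]
    intro t ht
    have ht0 : 0 < t := lt_of_lt_of_le hu ht.1
    exact (continuousAt_const.div (continuousAt_id.pow 2)
      (pow_ne_zero 2 ht0.ne')).continuousWithinAt
  refine ⟨hI, ?_⟩
  have h1 := intervalIntegral.integral_eq_sub_of_hasDerivAt (f := fun t => -(C / t))
    (f' := fun t => C / t ^ 2) (a := u) (b := v) (fun t ht => ?_) hI
  · rw [h1]
    ring
  · rw [Set.uIcc_of_le huv] at ht
    have ht0 : 0 < t := lt_of_lt_of_le hu ht.1
    have h2 := ((hasDerivAt_inv ht0.ne').const_mul C).neg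
    refine h2.congr_deriv ?_ |>.congr_of_eventuallyEq ?_
    · field_simp
    · exact Filter.Eventually.of_forall fun x => by simp [div_eq_mul_inv]

/-- the integral of a small function converges -/
lemma eps_lim {ε : ℝ → ℝ} {C : ℝ} (hC : 0 ≤ C)
    (hI : ∀ y, 1 ≤ y → IntervalIntegrable (fun t => ε t / t) volume 1 y)
    (hb : ∀ t, 1 ≤ t → |ε t| ≤ C / t) :
    ∃ c : ℝ, ∀ y, 1 ≤ y → |(∫ t in (1 : ℝ)..y, ε t / t) - c| ≤ C / y := by
  obtain ⟨D, hD⟩ : ∃ D : ℝ → ℝ, D = fun y => ∫ t in (1 : ℝ)..y, ε t / t := ⟨_, rfl⟩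
  have hkey : ∀ y z : ℝ, 1 ≤ y → y ≤ z → |D z - D y| ≤ C / y := by
    intro y z hy hyz
    have hy0 : 0 < y := by linarith
    have hz0 : 0 < z := by linarith
    have hIyz : IntervalIntegrable (fun t => ε t / t) volume y z :=
      (hI y hy).symm.trans (hI z (hy.trans hyz))
    have h1 : D z - D y = ∫ t in y..z, ε t / t := by
      rw [hD]
      simp only
      rw [← intervalIntegral.integral_add_adjacent_intervals (hI y hy) hIyz]
      ring
    obtain ⟨h2, h3⟩ := int_inv_sq (C := C) hy0 hyz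
    rw [h1]
    have h4 : |∫ t in y..z, ε t / t| ≤ ∫ t in y..z, |ε t / t| :=
      intervalIntegral.abs_integral_le_integral_abs hyz
    refine h4.trans ?_
    have h5 : ∫ t in y..z, |ε t / t| ≤ ∫ t in y..z, C / t ^ 2 := by
      refine intervalIntegral.integral_mono_on hyz hIyz.abs h2 fun t ht => ?_
      have ht0 : 0 < t := lt_of_lt_of_le hy0 ht.1
      rw [abs_div, abs_of_pos ht0, div_le_iff₀ ht0]
      calc |ε t| ≤ C / t := hb t (hy.trans ht.1)
        _ = C / t ^ 2 * t := by field_simp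
    refine h5.trans ?_
    rw [h3]
    have : 0 ≤ C / z := by positivity
    linarith
  have hcau : CauchySeq (fun n : ℕ => D ((n : ℝ) + 1)) := by
    refine cauchySeq_of_le_tendsto_0 (fun n : ℕ => C / ((n : ℝ) + 1)) ?_ ?_
    · intro n m N hn hm
      have hN0 : (0 : ℝ) ≤ N := Nat.cast_nonneg N
      have hn' : (N : ℝ) ≤ n := by exact_mod_cast hn
      have hm' : (N : ℝ) ≤ m := by exact_mod_cast hm
      rw [Real.dist_eq]
      rcases le_total n m with h | h
      · have h' : (n : ℝ) ≤ m := by exact_mod_cast h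
        rw [abs_sub_comm]
        refine (hkey _ _ (by linarith) (by linarith)).trans ?_
        exact div_le_div_of_nonneg_left hC (by linarith) (by linarith)
      · have h' : (m : ℝ) ≤ n := by exact_mod_cast h
        refine (hkey _ _ (by linarith) (by linarith)).trans ?_
        exact div_le_div_of_nonneg_left hC (by linarith) (by linarith)
    · have h1 := tendsto_one_div_add_atTop_nhds_zero_nat (𝕜 := ℝ)
      have h2 := h1.const_mul C
      rw [mul_zero] at h2
      refine h2.congr fun n => ?_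
      ring
  obtain ⟨c, hc⟩ := cauchySeq_tendsto_of_complete hcau
  refine ⟨c, fun y hy => ?_⟩
  have h1 : Tendsto (fun n : ℕ => |D ((n : ℝ) + 1) - D y|) atTop (𝓝 |c - D y|) :=
    (hc.sub_const _).abs
  have h2 : |c - D y| ≤ C / y := by
    refine le_of_tendsto h1 ?_
    filter_upwards [eventually_ge_atTop ⌈y⌉₊] with n hn
    have h3 : y ≤ n := (Nat.le_ceil y).trans (by exact_mod_cast hn)
    exact hkey y _ hy (by linarith)
  rw [abs_sub_comm]
  rw [hD] at h2
  exact h2

/-- the harmonic numbers -/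
lemma expand_zero {y : ℝ} (hy : 1 ≤ y) :
    |Lam (fun _ => 1) (lg 0) y - (Real.log y + Real.eulerMascheroniConstant)| ≤ 2 / y := by
  have hy0 : 0 < y := by linarith
  obtain ⟨n, hn⟩ : ∃ n : ℕ, n = ⌊y⌋₊ := ⟨_, rfl⟩
  have hn1 : 1 ≤ n := by
    rw [hn]
    rw [Nat.one_le_floor_iff]
    exact hy
  have hnR : (1 : ℝ) ≤ n := by exact_mod_cast hn1
  have hny : (n : ℝ) ≤ y := by rw [hn]; exact Nat.floor_le hy0.le
  have hyn : y < n + 1 := by rw [hn]; exact Nat.lt_floor_add_one y
  have h1 : Lam (fun _ => 1) (lg 0) y = (harmonic n : ℝ) := by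
    unfold Lam lg
    rw [harmonic_eq_sum_Icc, ← hn]
    push_cast
    simp
  rw [h1]
  have h2 := Real.eulerMascheroniSeq_lt_eulerMascheroniConstant n
  have h3 := Real.eulerMascheroniConstant_lt_eulerMascheroniSeq' n
  unfold Real.eulerMascheroniSeq at h2
  unfold Real.eulerMascheroniSeq' at h3
  rw [if_neg (by omega)] at h3
  have h4 : Real.log y ≤ Real.log (n + 1) := Real.log_le_log hy0 hyn.le
  have h5 : Real.log n ≤ Real.log y := Real.log_le_log (by linarith) hny
  have h6 : Real.log (n + 1) - Real.log n ≤ 1 / n := by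
    have h7 : Real.log (n + 1) - Real.log n = Real.log (1 + 1 / n) := by
      rw [← Real.log_div (by positivity) (by positivity)]
      congr 1
      field_simp
    rw [h7]
    have := Real.log_le_sub_one_of_pos (show (0 : ℝ) < 1 + 1 / n by positivity)
    linarith
  have h8 : 1 / (n : ℝ) ≤ 2 / y := by
    rw [div_le_div_iff₀ (by linarith) hy0]
    linarith
  rw [abs_le]
  constructor <;> linarith

/-- the expansion of the sums of powers of logarithms -/
lemma expand (k : ℕ) : ∃ (c : ℕ → ℝ) (C : ℝ), 0 ≤ C ∧ ∀ y : ℝ, 1 ≤ y →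
    |Lam (fun _ => 1) (lg k) y - (lg (k + 1) y / (k + 1) +
      ∑ j ∈ Finset.range (k + 1), c j * lg j y)| ≤ C / y := by
  induction k with
  | zero =>
    refine ⟨fun _ => Real.eulerMascheroniConstant, 2, by norm_num, fun y hy => ?_⟩
    have h1 := expand_zero hy
    have h2 : lg (0 + 1) y / ((0 : ℕ) + 1) + ∑ j ∈ Finset.range (0 + 1),
        Real.eulerMascheroniConstant * lg j y = Real.log y + Real.eulerMascheroniConstant := by
      unfold lg
      simp
    rw [h2]
    exact h1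
  | succ k ih =>
    obtain ⟨c, C, hC, hc⟩ := ih
    obtain ⟨Q, hQ⟩ : ∃ Q : ℝ → ℝ, Q = fun t => lg (k + 1) t / (k + 1) +
      ∑ j ∈ Finset.range (k + 1), c j * lg j t := ⟨_, rfl⟩
    obtain ⟨ε, hε⟩ : ∃ ε : ℝ → ℝ, ε = fun t => Lam (fun _ => 1) (lg k) t - Q t := ⟨_, rfl⟩
    have hQI : ∀ y, 1 ≤ y → IntervalIntegrable (fun t => Q t / t) volume 1 y ∧
        ∫ t in (1 : ℝ)..y, Q t / t = lg (k + 2) y / ((k + 1) * (k + 2)) +
          ∑ j ∈ Finset.range (k + 1), c j * lg (j + 1) y / (j + 1) := by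
      intro y hy
      have h0 : ∀ (j : ℕ) (b : ℝ), IntervalIntegrable (fun t => b * lg j t / t) volume 1 y ∧
          ∫ t in (1 : ℝ)..y, b * lg j t / t = b * lg (j + 1) y / (j + 1) := by
        intro j b
        have h1 := int_log_pow j b one_pos one_pos hy
        simp only [div_one] at h1
        refine ⟨h1.1, ?_⟩
        rw [h1.2]
        unfold lg
        simp
      have hsplit : (fun t => Q t / t) = fun t => (1 / ((k : ℝ) + 1)) * lg (k + 1) t / t +
          ∑ j ∈ Finset.range (k + 1), c j * lg j t / t := by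
        funext t
        rw [hQ]
        simp only
        rw [add_div, Finset.sum_div]
        congr 1
        ring
      have hS : IntervalIntegrable (fun t => ∑ j ∈ Finset.range (k + 1), c j * lg j t / t)
          volume 1 y := by
        have := IntervalIntegrable.sum (μ := volume) (a := 1) (b := y) (Finset.range (k + 1))
          (f := fun (j : ℕ) (t : ℝ) => c j * lg j t / t) (fun j _ => (h0 j (c j)).1)
        refine this.congr (fun t _ => ?_)
        simp only [Finset.sum_apply]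
      rw [hsplit]
      refine ⟨(h0 _ _).1.add hS, ?_⟩
      rw [intervalIntegral.integral_add (h0 _ _).1 hS, (h0 _ _).2,
        intervalIntegral.integral_finsetSum fun j _ => (h0 j (c j)).1,
        Finset.sum_congr rfl fun j _ => (h0 j (c j)).2]
      congr 1
      push_cast
      field_simp
      ring_nf
    have hεI : ∀ y, 1 ≤ y → IntervalIntegrable (fun t => ε t / t) volume 1 y := by
      intro y hy
      have h1 := ((J_lam (fun _ => 1) k hy).1).sub (hQI y hy).1
      refine h1.congr fun t _ => ?_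
      rw [hε]
      simp only
      ring
    have hεb : ∀ t, 1 ≤ t → |ε t| ≤ C / t := by
      intro t ht
      rw [hε, hQ]
      exact hc t ht
    obtain ⟨b, hb⟩ := eps_lim hC hεI hεb
    refine ⟨fun j => if j = 0 then (k + 1) * b else (k + 1) * c (j - 1) / j, (k + 1) * C,
      by positivity, fun y hy => ?_⟩
    have hy0 : 0 < y := by linarith
    have h1 : Lam (fun _ => 1) (lg (k + 1)) y = ((k : ℝ) + 1) *
        ((∫ t in (1 : ℝ)..y, Q t / t) + ∫ t in (1 : ℝ)..y, ε t / t) := by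
      rw [← (J_lam (fun _ => 1) k hy).2, ← intervalIntegral.integral_add (hQI y hy).1 (hεI y hy)]
      congr 1
      refine intervalIntegral.integral_congr fun t _ => ?_
      rw [hε]
      simp only
      ring
    have h2 : lg (k + 1 + 1) y / (((k + 1 : ℕ) : ℝ) + 1) + ∑ j ∈ Finset.range (k + 1 + 1),
        (if j = 0 then ((k : ℝ) + 1) * b else (k + 1) * c (j - 1) / j) * lg j y =
        ((k : ℝ) + 1) * ((∫ t in (1 : ℝ)..y, Q t / t) + b) := by
      rw [(hQI y hy).2, Finset.sum_range_succ']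
      simp only [Nat.add_eq_zero_iff, one_ne_zero, and_false, if_false, add_tsub_cancel_right,
        if_true]
      have h3 : ∑ j ∈ Finset.range (k + 1), ((k : ℝ) + 1) * c j / ((j + 1 : ℕ) : ℝ) *
          lg (j + 1) y = ((k : ℝ) + 1) * ∑ j ∈ Finset.range (k + 1),
            c j * lg (j + 1) y / (j + 1) := by
        rw [Finset.mul_sum]
        refine Finset.sum_congr rfl fun j _ => ?_
        push_cast
        ring
      rw [h3]
      have h4 : lg 0 y = 1 := by unfold lg; simp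
      rw [h4]
      push_cast
      field_simp
      ring
    rw [h1, h2]
    have h5 := hb y hy
    have h6 : ((k : ℝ) + 1) * ((∫ t in (1 : ℝ)..y, Q t / t) + ∫ t in (1 : ℝ)..y, ε t / t) -
        ((k : ℝ) + 1) * ((∫ t in (1 : ℝ)..y, Q t / t) + b) =
        ((k : ℝ) + 1) * ((∫ t in (1 : ℝ)..y, ε t / t) - b) := by ring
    rw [h6, abs_mul, abs_of_pos (by positivity), mul_div_assoc]
    gcongr

/-! ### The Möbius function -/

lemma abs_mr_le (n : ℕ) : |mr n| ≤ 1 := by
  unfold mr
  rw [← Int.cast_abs]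
  exact_mod_cast ArithmeticFunction.abs_moebius_le_one

lemma cv_mr_one {n : ℕ} (_hn : 1 ≤ n) : cv mr (fun _ => 1) n = if n = 1 then 1 else 0 := by
  have h1 : ∑ d ∈ n.divisors, ArithmeticFunction.moebius d = if n = 1 then 1 else 0 := by
    rw [← ArithmeticFunction.coe_mul_zeta_apply, ArithmeticFunction.moebius_mul_coe_zeta,
      ArithmeticFunction.one_apply]
  unfold cv mr
  simp only [mul_one]
  rw [Nat.sum_divisorsAntidiagonal (fun d _ => ((ArithmeticFunction.moebius d : ℤ) : ℝ))]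
  have h2 : ((∑ d ∈ n.divisors, ArithmeticFunction.moebius d : ℤ) : ℝ) =
      if n = 1 then 1 else 0 := by
    rw [h1]
    split_ifs <;> simp
  rw [← h2]
  push_cast
  rfl

/-- Möbius inversion -/
lemma Lam_inv (f : ℝ → ℝ) {y : ℝ} (hy : 1 ≤ y) : Lam mr (Lam (fun _ => 1) f) y = f y := by
  rw [Lam_Lam]
  unfold Lam
  have h1 : (1 : ℕ) ∈ Finset.Icc 1 ⌊y⌋₊ := Finset.mem_Icc.2 ⟨le_rfl, by
    rw [Nat.one_le_floor_iff]
    exact hy⟩
  rw [Finset.sum_eq_single_of_mem 1 h1]
  · rw [cv_mr_one le_rfl]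
    simp
  · intro n hn hn1
    rw [cv_mr_one (Finset.mem_Icc.1 hn).1, if_neg hn1]
    simp

lemma M0_bound {y : ℝ} (hy : 1 ≤ y) : |Lam mr (lg 0) y| ≤ 2 := by
  have hy0 : 0 < y := by linarith
  obtain ⟨N, hN⟩ : ∃ N : ℕ, N = ⌊y⌋₊ := ⟨_, rfl⟩
  have hN1 : 1 ≤ N := by
    rw [hN]
    rw [Nat.one_le_floor_iff]
    exact hy
  have h1 : ∑ n ∈ Finset.Icc 1 N, mr n * ((N / n : ℕ) : ℝ) = 1 := by
    have h2 := ArithmeticFunction.sum_Ioc_mul_zeta_eq_sum ArithmeticFunction.moebius N
    rw [ArithmeticFunction.moebius_mul_coe_zeta] at h2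
    have h3 : ∑ n ∈ Finset.Ioc 0 N, (1 : ArithmeticFunction ℤ) n = 1 := by
      rw [Finset.sum_eq_single_of_mem 1 (by simp; omega)]
      · simp
      · intro n _ hn1
        rw [ArithmeticFunction.one_apply, if_neg hn1]
    rw [h3] at h2
    have h4 : ((∑ n ∈ Finset.Ioc 0 N, ArithmeticFunction.moebius n * ((N / n : ℕ) : ℤ) : ℤ) : ℝ) =
        1 := by
      rw [← h2]
      simp
    rw [← h4]
    push_cast
    unfold mr
    refine Finset.sum_congr ?_ fun _ _ => rfl
    ext n
    simp only [Finset.mem_Icc, Finset.mem_Ioc]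
    omega
  have h5 : y * Lam mr (lg 0) y = ∑ n ∈ Finset.Icc 1 N, mr n * (y / n) := by
    unfold Lam lg
    rw [Finset.mul_sum, ← hN]
    exact Finset.sum_congr rfl fun n _ => by ring
  have h6 : |y * Lam mr (lg 0) y - 1| ≤ y := by
    rw [h5, ← h1, ← Finset.sum_sub_distrib]
    calc |∑ n ∈ Finset.Icc 1 N, (mr n * (y / n) - mr n * ((N / n : ℕ) : ℝ))|
        ≤ ∑ n ∈ Finset.Icc 1 N, (1 : ℝ) := by
          refine (Finset.abs_sum_le_sum_abs _ _).trans (Finset.sum_le_sum fun n hn => ?_)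
          have hn1 := (Finset.mem_Icc.1 hn).1
          have hn0 : (0 : ℝ) < n := by exact_mod_cast hn1
          have h7 : ((N / n : ℕ) : ℝ) = (⌊y / n⌋₊ : ℝ) := by
            rw [Nat.floor_div_natCast, hN]
          rw [← mul_sub, abs_mul, h7]
          have h8 := Nat.floor_le (show 0 ≤ y / n by positivity)
          have h9 := Nat.lt_floor_add_one (y / n)
          have h10 : |y / n - (⌊y / n⌋₊ : ℝ)| ≤ 1 := by
            rw [abs_le]
            constructor <;> linarith
          calc |mr n| * |y / n - (⌊y / n⌋₊ : ℝ)| ≤ 1 * 1 := by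
                gcongr
                exact abs_mr_le n
            _ = 1 := one_mul 1
      _ = N := by simp
      _ ≤ y := by rw [hN]; exact Nat.floor_le hy0.le
  have h7 : y * |Lam mr (lg 0) y| ≤ y * 2 := by
    have h8 : y * |Lam mr (lg 0) y| = |y * Lam mr (lg 0) y| := by rw [abs_mul, abs_of_pos hy0]
    rw [h8]
    calc |y * Lam mr (lg 0) y| = |(y * Lam mr (lg 0) y - 1) + 1| := by ring_nf
      _ ≤ |y * Lam mr (lg 0) y - 1| + |1| := abs_add_le _ _
      _ ≤ y + 1 := by rw [abs_one]; linarith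
      _ ≤ y * 2 := by linarith
  exact le_of_mul_le_mul_left h7 hy0

/-- the recursion for the smoothed sums -/
lemma M_rec (k : ℕ) : ∃ (c : ℕ → ℝ) (C : ℝ) (ε : ℝ → ℝ), 0 ≤ C ∧ (∀ y, 1 ≤ y → |ε y| ≤ C) ∧
    ∀ y : ℝ, 1 ≤ y → lg k y = Lam mr (lg (k + 1)) y / (k + 1) +
      ∑ j ∈ Finset.range (k + 1), c j * Lam mr (lg j) y + ε y := by
  obtain ⟨c, C, hC, hc⟩ := expand k
  obtain ⟨δ, hδ⟩ : ∃ δ : ℝ → ℝ, δ = fun y => Lam (fun _ => 1) (lg k) y - (lg (k + 1) y / (k + 1) +
    ∑ j ∈ Finset.range (k + 1), c j * lg j y) := ⟨_, rfl⟩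
  refine ⟨c, C, Lam mr δ, hC, fun y hy => ?_, fun y hy => ?_⟩
  · refine Lam_bound_inv abs_mr_le hy hC fun x hx => ?_
    rw [hδ]
    exact hc x hx
  · have h1 : Lam (fun _ => 1) (lg k) = fun x => ((1 / ((k : ℝ) + 1)) * lg (k + 1) x +
        ∑ j ∈ Finset.range (k + 1), c j * lg j x) + δ x := by
      funext x
      rw [hδ]
      simp only
      ring
    rw [← Lam_inv (lg k) hy, h1, Lam_add, Lam_add, Lam_smul, Lam_sum]
    rw [Finset.sum_congr rfl fun j _ => Lam_smul mr (c j) (lg j) y]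
    ring

lemma one_le_log' {y : ℝ} (hy : 1 ≤ y) : 1 ≤ 1 + Real.log y := by
  have := Real.log_nonneg hy
  linarith

lemma M1_bound : ∃ C : ℝ, 0 ≤ C ∧ ∀ y : ℝ, 1 ≤ y → |Lam mr (lg 1) y| ≤ C := by
  obtain ⟨c, C, ε, hC, hε, h⟩ := M_rec 0
  refine ⟨1 + |c 0| * 2 + C, by positivity, fun y hy => ?_⟩
  have h1 := h y hy
  have h2 : Lam mr (lg 1) y = lg 0 y - c 0 * Lam mr (lg 0) y - ε y := by
    rw [Finset.sum_range_one] at h1
    simp only [zero_add, Nat.cast_zero, div_one] at h1
    linarith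
  rw [h2]
  have h3 : |lg 0 y| ≤ 1 := by unfold lg; simp
  have h4 : |c 0 * Lam mr (lg 0) y| ≤ |c 0| * 2 := by
    rw [abs_mul]
    gcongr
    exact M0_bound hy
  calc |lg 0 y - c 0 * Lam mr (lg 0) y - ε y|
      ≤ |lg 0 y - c 0 * Lam mr (lg 0) y| + |ε y| := abs_sub _ _
    _ ≤ |lg 0 y| + |c 0 * Lam mr (lg 0) y| + |ε y| := by
        gcongr
        exact abs_sub _ _
    _ ≤ _ := by
        have := hε y hy
        linarith

/-- one integration of an asymptotic formula -/
lemma J_step {a : ℕ → ℝ} {k : ℕ} {A C : ℝ} {e : ℕ}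
    (h : ∀ y : ℝ, 1 ≤ y → |Lam a (lg k) y - A * lg e y| ≤ C * (1 + Real.log y) ^ (e - 1))
    (he : 1 ≤ e) (hC : 0 ≤ C) :
    ∀ y : ℝ, 1 ≤ y → |Lam a (lg (k + 1)) y - (k + 1) * A / (e + 1) * lg (e + 1) y| ≤
      (k + 1) * C * (1 + Real.log y) ^ (e + 1 - 1) := by
  intro y hy
  have hy0 : 0 < y := by linarith
  have hL := Real.log_nonneg hy
  obtain ⟨h1, h2⟩ := J_lam a k hy
  have h3 := int_log_pow e A one_pos one_pos hy
  simp only [div_one] at h3
  obtain ⟨h3, h4⟩ := h3
  have h5 : lg (e + 1) 1 = 0 := by unfold lg; simp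
  rw [h5, mul_zero, zero_div, sub_zero] at h4
  have h6 : Lam a (lg (k + 1)) y - (k + 1) * A / (e + 1) * lg (e + 1) y =
      (k + 1) * ∫ t in (1 : ℝ)..y, (Lam a (lg k) t / t - A * lg e t / t) := by
    rw [intervalIntegral.integral_sub h1 h3, mul_sub, h2, h4]
    ring
  rw [h6, abs_mul, abs_of_pos (by positivity : (0 : ℝ) < k + 1), mul_assoc]
  refine mul_le_mul_of_nonneg_left ?_ (by positivity)
  have hB := int_log_pow 0 (C * (1 + Real.log y) ^ (e - 1)) one_pos one_pos hy
  simp only [div_one] at hB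
  obtain ⟨hB1, hB2⟩ := hB
  calc |∫ t in (1 : ℝ)..y, (Lam a (lg k) t / t - A * lg e t / t)|
      ≤ ∫ t in (1 : ℝ)..y, |Lam a (lg k) t / t - A * lg e t / t| :=
        intervalIntegral.abs_integral_le_integral_abs hy
    _ ≤ ∫ t in (1 : ℝ)..y, C * (1 + Real.log y) ^ (e - 1) * lg 0 t / t := by
        refine intervalIntegral.integral_mono_on hy (h1.sub h3).abs hB1 fun t ht => ?_
        have ht0 : 0 < t := by linarith [ht.1]
        have h7 : Lam a (lg k) t / t - A * lg e t / t = (Lam a (lg k) t - A * lg e t) / t := by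
          ring
        rw [h7, abs_div, abs_of_pos ht0]
        have h8 := h t ht.1
        have h9 : Real.log t ≤ Real.log y := Real.log_le_log ht0 ht.2
        have h10 := Real.log_nonneg ht.1
        have h11 : lg 0 t = 1 := by unfold lg; simp
        rw [h11, mul_one]
        gcongr
        refine h8.trans ?_
        gcongr
    _ = C * (1 + Real.log y) ^ (e - 1) * Real.log y := by
        rw [hB2]
        unfold lg
        simp
    _ ≤ C * (1 + Real.log y) ^ (e - 1) * (1 + Real.log y) := by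
        gcongr
        linarith
    _ = C * (1 + Real.log y) ^ (e + 1 - 1) := by
        rw [mul_assoc, ← pow_succ]
        congr 2
        omega

lemma M_asymp (k : ℕ) : ∃ C : ℝ, 0 < C ∧ ∀ y : ℝ, 1 ≤ y →
    |Lam mr (lg (k + 2)) y - (k + 2) * lg (k + 1) y| ≤ C * (1 + Real.log y) ^ (k + 1 - 1) := by
  induction k with
  | zero =>
    obtain ⟨c, C, ε, hC, hε, h⟩ := M_rec 1
    obtain ⟨C1, hC1, h1⟩ := M1_bound
    refine ⟨2 * (|c 0| * 2 + |c 1| * C1 + C) + 1, by positivity, fun y hy => ?_⟩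
    have h2 := h y hy
    have h3 : Lam mr (lg (0 + 2)) y - ((0 : ℕ) + 2) * lg (0 + 1) y =
        -(2 * (c 0 * Lam mr (lg 0) y + c 1 * Lam mr (lg 1) y + ε y)) := by
      rw [Finset.sum_range_succ, Finset.sum_range_succ, Finset.sum_range_zero] at h2
      push_cast at h2 ⊢
      norm_num at h2 ⊢
      rw [h2]
      ring
    rw [h3, abs_neg, abs_mul, abs_of_pos (by norm_num : (0 : ℝ) < 2)]
    simp only [zero_add, tsub_self, pow_zero, mul_one]
    have h4 : |c 0 * Lam mr (lg 0) y| ≤ |c 0| * 2 := by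
      rw [abs_mul]
      gcongr
      exact M0_bound hy
    have h5 : |c 1 * Lam mr (lg 1) y| ≤ |c 1| * C1 := by
      rw [abs_mul]
      gcongr
      exact h1 y hy
    have h6 : |c 0 * Lam mr (lg 0) y + c 1 * Lam mr (lg 1) y + ε y| ≤
        |c 0| * 2 + |c 1| * C1 + C := by
      refine (abs_add_le _ _).trans (add_le_add ((abs_add_le _ _).trans (add_le_add h4 h5)) ?_)
      exact hε y hy
    linarith
  | succ k ih =>
    obtain ⟨C, hC, h⟩ := ih
    have h1 := J_step (A := (k : ℝ) + 2) (e := k + 1) h (by omega) hC.le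
    refine ⟨((k + 2 : ℕ) + 1) * C, by positivity, fun y hy => ?_⟩
    have h2 := h1 y hy
    have h3 : (((k + 2 : ℕ) : ℝ) + 1) * ((k : ℝ) + 2) / (((k + 1 : ℕ) : ℝ) + 1) =
        ((k + 1 : ℕ) : ℝ) + 2 := by
      push_cast
      field_simp
      ring
    rw [h3] at h2
    exact h2

theorem pf_MU1 : T_MU1 := by
  intro k hk
  obtain ⟨j, rfl⟩ : ∃ j, k = j + 2 := ⟨k - 2, by omega⟩
  obtain ⟨C, hC, h⟩ := M_asymp j
  refine ⟨C, hC, fun y hy => ?_⟩
  have h1 := h y hy
  unfold Lam lg at h1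
  push_cast
  exact h1

end Pool.Agent.H63.CN
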