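import Pool.Agent.H63.CN.Conv
import Pool.Agent.H31.CN.T4

/-!
# Module MU3: the mollifier sum of the first moment
-/

set_option autoImplicit false

open MeasureTheory Set Filter Topology

namespace Pool.Agent.H63.CN

open Pool.Agent.H31.CN

/-- the Möbius function with coprimality -/
noncomputable def cN (N n : ℕ) : ℝ := if Nat.Coprime n N then mr n else 0

/-- indicator of the numbers whose primes divide `N` -/
noncomputable def hNf (N : ℕ) : ℕ → ℝ :=
  Set.indicator (Nat.factoredNumbers N.primeFactors) (fun _ => 1)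

lemma hNf_zero (N : ℕ) : hNf N 0 = 0 := by
  unfold hNf
  rw [Set.indicator_of_notMem]
  intro h
  exact Nat.ne_zero_of_mem_factoredNumbers h rfl

lemma hNf_one (N : ℕ) : hNf N 1 = 1 := by
  unfold hNf
  rw [Set.indicator_of_mem]
  rw [Nat.mem_factoredNumbers]
  simp

lemma hNf_mul (N m n : ℕ) : hNf N (m * n) = hNf N m * hNf N n := by
  unfold hNf
  by_cases h : m ∈ Nat.factoredNumbers N.primeFactors ∧ n ∈ Nat.factoredNumbers N.primeFactors
  · rw [Set.indicator_of_mem (Nat.mul_mem_factoredNumbers h.1 h.2), Set.indicator_of_mem h.1,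
      Set.indicator_of_mem h.2, one_mul]
  · have h1 : m * n ∉ Nat.factoredNumbers N.primeFactors := by
      intro h1
      exact h ⟨Nat.mem_factoredNumbers_of_dvd h1 (Dvd.intro _ rfl),
        Nat.mem_factoredNumbers_of_dvd h1 (Dvd.intro_left _ rfl)⟩
    rw [Set.indicator_of_notMem h1]
    by_cases h2 : m ∈ Nat.factoredNumbers N.primeFactors
    · have h3 : n ∉ Nat.factoredNumbers N.primeFactors := fun h3 => h ⟨h2, h3⟩
      rw [Set.indicator_of_notMem h3, mul_zero]
    · rw [Set.indicator_of_notMem h2, zero_mul]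

lemma hNf_prime {N p : ℕ} (hN : N ≠ 0) (hp : p.Prime) : hNf N p = if p ∣ N then 1 else 0 := by
  unfold hNf
  have h1 : p ∈ Nat.factoredNumbers N.primeFactors ↔ p ∣ N := by
    rw [Nat.mem_factoredNumbers, Nat.primeFactorsList_prime hp]
    simp [hp, hp.ne_zero, hN]
  split_ifs with h
  · rw [Set.indicator_of_mem (h1.2 h)]
  · rw [Set.indicator_of_notMem (fun h2 => h (h1.1 h2))]

lemma hNf_pow (N p k : ℕ) : hNf N (p ^ k) = hNf N p ^ k := by
  induction k with
  | zero => rw [pow_zero, pow_zero, hNf_one]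
  | succ k ih => rw [pow_succ, hNf_mul, ih, pow_succ]

/-- arithmetic functions -/
noncomputable def aH (N : ℕ) : ArithmeticFunction ℝ := ⟨hNf N, hNf_zero N⟩

noncomputable def aC (N : ℕ) : ArithmeticFunction ℝ := ⟨cN N, by
  unfold cN mr
  simp⟩

lemma aH_mult (N : ℕ) : (aH N).IsMultiplicative :=
  ⟨hNf_one N, fun {m n} _ => hNf_mul N m n⟩

lemma aC_mult (N : ℕ) : (aC N).IsMultiplicative := by
  refine ⟨?_, fun {m n} hmn => ?_⟩
  · change cN N 1 = 1
    unfold cN mr
    simp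
  · change cN N (m * n) = cN N m * cN N n
    unfold cN mr
    rw [ArithmeticFunction.isMultiplicative_moebius.map_mul_of_coprime hmn]
    simp only [Nat.coprime_mul_iff_left]
    by_cases h1 : Nat.Coprime m N
    · by_cases h2 : Nat.Coprime n N
      · rw [if_pos ⟨h1, h2⟩, if_pos h1, if_pos h2]
        push_cast
        rfl
      · simp [h2]
    · simp [h1]

lemma cv_mr_hNf {N : ℕ} (hN : N ≠ 0) (n : ℕ) : cv mr (hNf N) n = cN N n := by
  have hμ : ((ArithmeticFunction.moebius : ArithmeticFunction ℝ)).IsMultiplicative :=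
    ArithmeticFunction.isMultiplicative_moebius.intCast
  have h1 : (ArithmeticFunction.moebius : ArithmeticFunction ℝ) * aH N = aC N := by
    rw [ArithmeticFunction.IsMultiplicative.eq_iff_eq_on_prime_powers _ (hμ.mul (aH_mult N)) _
      (aC_mult N)]
    intro p i hp
    rw [ArithmeticFunction.mul_apply]
    change ∑ x ∈ (p ^ i).divisorsAntidiagonal,
      ((ArithmeticFunction.moebius x.1 : ℤ) : ℝ) * hNf N x.2 = cN N (p ^ i)
    rw [Nat.sum_divisorsAntidiagonal
      (fun a b => ((ArithmeticFunction.moebius a : ℤ) : ℝ) * hNf N b),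
      Nat.sum_divisors_prime_pow hp]
    rcases i with _ | i
    · simp [hNf_one, cN, mr]
    · have h2 : ∀ j ∈ Finset.range (i + 1 + 1),
          ((ArithmeticFunction.moebius (p ^ j) : ℤ) : ℝ) * hNf N (p ^ (i + 1) / p ^ j) =
          ((ArithmeticFunction.moebius (p ^ j) : ℤ) : ℝ) * hNf N p ^ (i + 1 - j) := by
        intro j hj
        rw [Nat.pow_div (by have := Finset.mem_range.1 hj; omega) hp.pos, hNf_pow]
      rw [Finset.sum_congr rfl h2, Finset.sum_range_succ', Finset.sum_range_succ']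
      have h3 : ∑ j ∈ Finset.range i,
          ((ArithmeticFunction.moebius (p ^ (j + 1 + 1)) : ℤ) : ℝ) *
            hNf N p ^ (i + 1 - (j + 1 + 1)) = 0 := by
        refine Finset.sum_eq_zero fun j _ => ?_
        rw [ArithmeticFunction.moebius_apply_prime_pow hp (by omega), if_neg (by omega)]
        simp
      rw [h3, hNf_prime hN hp]
      unfold cN mr
      have h4 : Nat.Coprime (p ^ (i + 1)) N ↔ ¬ p ∣ N := by
        rw [Nat.coprime_pow_left_iff (by omega), hp.coprime_iff_not_dvd]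
      by_cases hd : p ∣ N
      · have h5 : ¬ Nat.Coprime (p ^ (i + 1)) N := by rw [h4]; exact not_not.2 hd
        rw [if_pos hd, if_neg h5]
        simp [ArithmeticFunction.moebius_apply_prime hp]
      · have h5 : Nat.Coprime (p ^ (i + 1)) N := by rw [h4]; exact hd
        rw [if_neg hd, if_pos h5]
        rcases i with _ | i
        · simp
        · simp [ArithmeticFunction.moebius_apply_prime_pow hp]
  have h2 : ((ArithmeticFunction.moebius : ArithmeticFunction ℝ) * aH N) n = aC N n := by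
    rw [h1]
  rw [ArithmeticFunction.mul_apply] at h2
  exact h2

/-- reciprocals -/
noncomputable def f1 : ℕ →* ℝ where
  toFun n := 1 / (n : ℝ)
  map_one' := by simp
  map_mul' m n := by
    push_cast
    rw [one_div_mul_one_div]

/-- powers -/
noncomputable def f34 : ℕ →* ℝ where
  toFun n := (n : ℝ) ^ (-(3 / 4) : ℝ)
  map_one' := by simp
  map_mul' m n := by
    push_cast
    rw [Real.mul_rpow (Nat.cast_nonneg m) (Nat.cast_nonneg n)]

lemma hNf_summable (N : ℕ) :
    Summable (fun b : ℕ => |hNf N b| * (b : ℝ) ^ (-(3 / 4) : ℝ)) := by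
  have h1 := (EulerProduct.summable_and_hasSum_factoredNumbers_prod_filter_prime_geometric
    (f := f34) (fun {p} hp => by
      change ‖(p : ℝ) ^ (-(3 / 4) : ℝ)‖ < 1
      rw [Real.norm_of_nonneg (by positivity)]
      exact Real.rpow_lt_one_of_one_lt_of_neg (by exact_mod_cast hp.one_lt) (by norm_num))
    N.primeFactors).1
  have h2 : Summable (Set.indicator (Nat.factoredNumbers N.primeFactors)
      (fun m : ℕ => ‖f34 m‖)) := summable_subtype_iff_indicator.1 h1
  refine h2.congr fun b => ?_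
  unfold hNf
  by_cases hb : b ∈ Nat.factoredNumbers N.primeFactors
  · rw [Set.indicator_of_mem hb, Set.indicator_of_mem hb, abs_one, one_mul]
    exact (Real.norm_of_nonneg (show (0 : ℝ) ≤ (b : ℝ) ^ (-(3 / 4) : ℝ) by positivity))
  · rw [Set.indicator_of_notMem hb, Set.indicator_of_notMem hb]
    simp

lemma hNf_tsum (N : ℕ) :
    ∑' b : ℕ, hNf N b / b = ∏ p ∈ N.primeFactors, (1 - 1 / (p : ℝ))⁻¹ := by
  have h1 := (EulerProduct.summable_and_hasSum_factoredNumbers_prod_filter_prime_geometric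
    (f := f1) (fun {p} hp => by
      change ‖1 / (p : ℝ)‖ < 1
      rw [Real.norm_of_nonneg (by positivity), div_lt_one (by exact_mod_cast hp.pos)]
      exact_mod_cast hp.one_lt)
    N.primeFactors).2
  have h2 : N.primeFactors.filter Nat.Prime = N.primeFactors :=
    Finset.filter_true_of_mem fun p hp => Nat.prime_of_mem_primeFactors hp
  rw [h2] at h1
  have h3 : ∏ p ∈ N.primeFactors, (1 - 1 / (p : ℝ))⁻¹ = ∏ p ∈ N.primeFactors, (1 - f1 p)⁻¹ := rfl
  rw [h3, ← h1.tsum_eq, tsum_subtype (Nat.factoredNumbers N.primeFactors) (fun m : ℕ => f1 m)]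
  refine tsum_congr fun b => ?_
  unfold hNf
  by_cases hb : b ∈ Nat.factoredNumbers N.primeFactors
  · rw [Set.indicator_of_mem hb, Set.indicator_of_mem hb]
    rfl
  · rw [Set.indicator_of_notMem hb, Set.indicator_of_notMem hb, zero_div]

/-- the constant -/
noncomputable def GN (N : ℕ) : ℝ := ∏ p ∈ N.primeFactors, (1 - 1 / (p : ℝ))⁻¹

lemma T_asymp (hMU1 : T_MU1) {N : ℕ} (hN : N ≠ 0) (k : ℕ) : ∃ C : ℝ, 0 ≤ C ∧
    ∀ y : ℝ, 1 ≤ y → |Lam (cN N) (lg (k + 2)) y - GN N * ((k + 2) * lg (k + 1) y)| ≤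
      C * (1 + Real.log y) ^ k := by
  obtain ⟨C1, hC1, h1⟩ := hMU1 (k + 2) (by omega)
  refine ⟨(C1 + |(k : ℝ) + 2| * (4 * (k + 1))) *
    (∑' b : ℕ, |hNf N b| * (b : ℝ) ^ (-(3 / 4) : ℝ)), ?_, fun y hy => ?_⟩
  · have : 0 ≤ ∑' b : ℕ, |hNf N b| * (b : ℝ) ^ (-(3 / 4) : ℝ) :=
      tsum_nonneg fun b => by positivity
    positivity
  have h3 : ∀ y : ℝ, 1 ≤ y → |Lam mr (lg (k + 2)) y - ((k : ℝ) + 2) * lg (k + 1) y| ≤
      C1 * (1 + Real.log y) ^ k := by
    intro y hy
    have := h1 y hy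
    push_cast at this
    exact this
  have h4 := conv_asymp hC1.le h3 (hNf_zero N) (hNf_summable N) hy
  rw [hNf_tsum] at h4
  have h5 : Lam (cv mr (hNf N)) (lg (k + 2)) y = Lam (cN N) (lg (k + 2)) y := by
    unfold Lam
    exact Finset.sum_congr rfl fun n _ => by rw [cv_mr_hNf hN]
  rw [h5] at h4
  exact h4

lemma T_bound (hMU1 : T_MU1) {N : ℕ} (hN : N ≠ 0) (k : ℕ) : ∃ C : ℝ, 0 ≤ C ∧
    ∀ y : ℝ, 1 ≤ y → |Lam (cN N) (lg (k + 2)) y| ≤ C * (1 + Real.log y) ^ (k + 1) := by
  obtain ⟨C, hC, h⟩ := T_asymp hMU1 hN k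
  refine ⟨|GN N| * (k + 2) + C, by positivity, fun y hy => ?_⟩
  have hL := Real.log_nonneg hy
  have h1 := h y hy
  have h2 : |GN N * ((k + 2) * lg (k + 1) y)| ≤ |GN N| * (k + 2) * (1 + Real.log y) ^ (k + 1) := by
    unfold lg
    rw [abs_mul, abs_mul, abs_of_pos (by positivity : (0 : ℝ) < (k : ℝ) + 2),
      abs_of_nonneg (by positivity : 0 ≤ Real.log y ^ (k + 1)), ← mul_assoc]
    gcongr
    linarith
  have h3 : C * (1 + Real.log y) ^ k ≤ C * (1 + Real.log y) ^ (k + 1) := by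
    gcongr
    · linarith
    · omega
  calc |Lam (cN N) (lg (k + 2)) y|
      = |(Lam (cN N) (lg (k + 2)) y - GN N * ((k + 2) * lg (k + 1) y)) +
          GN N * ((k + 2) * lg (k + 1) y)| := by ring_nf
    _ ≤ |Lam (cN N) (lg (k + 2)) y - GN N * ((k + 2) * lg (k + 1) y)| +
          |GN N * ((k + 2) * lg (k + 1) y)| := abs_add_le _ _
    _ ≤ C * (1 + Real.log y) ^ (k + 1) + |GN N| * (k + 2) * (1 + Real.log y) ^ (k + 1) := by
        linarith
    _ = _ := by ring

lemma log_two_le {M : ℝ} (hM : 2 ≤ M) : 1 / 2 < Real.log M ∧ 1 + Real.log M ≤ 3 * Real.log M := by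
  have h1 : Real.log 2 ≤ Real.log M := Real.log_le_log (by norm_num) hM
  have h2 := Real.log_two_gt_d9
  constructor <;> linarith

/-- the statement for one monomial -/
lemma mono_bound (hMU1 : T_MU1) {N : ℕ} (hN : N ≠ 0) (κ L₀ : ℝ) (k : ℕ) : ∃ D : ℝ, 0 ≤ D ∧
    ∀ M L : ℝ, 2 ≤ M → |L - κ * Real.log M| ≤ L₀ →
      |Lam (cN N) (lg (k + 2)) M / Real.log M ^ (k + 2)| ≤ D / Real.log M ∧
      |((L - Real.log M) * Lam (cN N) (lg (k + 2)) M + Lam (cN N) (lg (k + 3)) M) /
        Real.log M ^ (k + 2) - GN N * (1 + κ * (k + 2))| ≤ D / Real.log M := by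
  obtain ⟨C1, hC1, h1⟩ := T_asymp hMU1 hN k
  obtain ⟨C2, hC2, h2⟩ := T_asymp hMU1 hN (k + 1)
  obtain ⟨C3, hC3, h3⟩ := T_bound hMU1 hN k
  refine ⟨C3 * 3 ^ (k + 1) + |GN N| * ((k + 2) * |L₀|) + 2 * (|L₀| + |κ - 1|) * C1 * 3 ^ k +
    C2 * 3 ^ (k + 1), by positivity, fun M L hM hL => ?_⟩
  have hM1 : (1 : ℝ) ≤ M := by linarith
  obtain ⟨hl, hl3⟩ := log_two_le hM
  obtain ⟨l, hldef⟩ : ∃ l : ℝ, l = Real.log M := ⟨_, rfl⟩
  rw [← hldef] at hl hl3 hL ⊢
  have hl0 : 0 < l := by linarith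
  have hLL : |L - κ * l| ≤ |L₀| := hL.trans (le_abs_self _)
  have e1 := h1 M hM1
  have e2 := h2 M hM1
  have e3 := h3 M hM1
  rw [← hldef] at e1 e2 e3
  have hp : ∀ j : ℕ, (1 + l) ^ j ≤ 3 ^ j * l ^ j := fun j => by
    rw [← mul_pow]
    exact pow_le_pow_left₀ (by linarith) hl3 j
  have hlk : (0 : ℝ) < l ^ (k + 2) := by positivity
  have hb1 : C3 * (1 + l) ^ (k + 1) / l ^ (k + 2) ≤ C3 * 3 ^ (k + 1) / l := by
    rw [div_le_div_iff₀ hlk hl0]
    have := mul_le_mul_of_nonneg_left (hp (k + 1)) hC3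
    calc C3 * (1 + l) ^ (k + 1) * l ≤ C3 * (3 ^ (k + 1) * l ^ (k + 1)) * l := by gcongr
      _ = _ := by ring
  constructor
  · rw [abs_div, abs_of_pos hlk]
    calc |Lam (cN N) (lg (k + 2)) M| / l ^ (k + 2) ≤ C3 * (1 + l) ^ (k + 1) / l ^ (k + 2) := by
          gcongr
      _ ≤ C3 * 3 ^ (k + 1) / l := hb1
      _ ≤ _ := by
          gcongr
          have : 0 ≤ |GN N| * ((k + 2) * |L₀|) + 2 * (|L₀| + |κ - 1|) * C1 * 3 ^ k +
            C2 * 3 ^ (k + 1) := by positivity
          linarith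
  · obtain ⟨x1, hx1⟩ : ∃ x1 : ℝ, x1 = Lam (cN N) (lg (k + 2)) M -
      GN N * ((k + 2) * lg (k + 1) M) := ⟨_, rfl⟩
    obtain ⟨x2, hx2⟩ : ∃ x2 : ℝ, x2 = Lam (cN N) (lg (k + 3)) M -
      GN N * ((k + 3) * lg (k + 2) M) := ⟨_, rfl⟩
    have f1 : |x1| ≤ C1 * (1 + l) ^ k := by rw [hx1]; exact e1
    have f2 : |x2| ≤ C2 * (1 + l) ^ (k + 1) := by
      rw [hx2]
      have h7 : (((k + 1 : ℕ) : ℝ) + 2) = (k : ℝ) + 3 := by push_cast; ring
      have h8 := e2
      rw [h7] at h8
      exact h8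
    have g1 : Lam (cN N) (lg (k + 2)) M = GN N * ((k + 2) * l ^ (k + 1)) + x1 := by
      rw [hx1, hldef]
      unfold lg
      ring
    have g2 : Lam (cN N) (lg (k + 3)) M = GN N * ((k + 3) * l ^ (k + 2)) + x2 := by
      rw [hx2, hldef]
      unfold lg
      ring
    have hkey : ((L - l) * Lam (cN N) (lg (k + 2)) M + Lam (cN N) (lg (k + 3)) M) /
        l ^ (k + 2) - GN N * (1 + κ * (k + 2)) =
        GN N * ((k + 2) * (L - κ * l)) / l + (L - l) * x1 / l ^ (k + 2) + x2 / l ^ (k + 2) := by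
      rw [g1, g2]
      field_simp
      ring
    rw [hkey]
    have b1 : |GN N * ((k + 2) * (L - κ * l)) / l| ≤ |GN N| * ((k + 2) * |L₀|) / l := by
      rw [abs_div, abs_mul, abs_mul, abs_of_pos hl0,
        abs_of_pos (by positivity : (0 : ℝ) < (k : ℝ) + 2)]
      gcongr
    have b2 : |(L - l) * x1 / l ^ (k + 2)| ≤ 2 * (|L₀| + |κ - 1|) * C1 * 3 ^ k / l := by
      rw [abs_div, abs_mul, abs_of_pos hlk]
      have h5 : |L - l| ≤ 2 * (|L₀| + |κ - 1|) * l := by
        calc |L - l| = |(L - κ * l) + (κ - 1) * l| := by ring_nf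
          _ ≤ |L - κ * l| + |(κ - 1) * l| := abs_add_le _ _
          _ ≤ |L₀| + |κ - 1| * l := by
              rw [abs_mul, abs_of_pos hl0]
              gcongr
          _ ≤ _ := by
              have q1 : 0 ≤ |L₀| := abs_nonneg _
              have q2 : 0 ≤ |κ - 1| := abs_nonneg _
              nlinarith [mul_nonneg q1 (by linarith : 0 ≤ 2 * l - 1), mul_nonneg q2 hl0.le]
      rw [div_le_div_iff₀ hlk hl0]
      calc |L - l| * |x1| * l ≤ (2 * (|L₀| + |κ - 1|) * l) * (C1 * (3 ^ k * l ^ k)) * l := by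
            gcongr
            refine f1.trans ?_
            gcongr
            exact hp k
        _ = _ := by ring
    have b3 : |x2 / l ^ (k + 2)| ≤ C2 * 3 ^ (k + 1) / l := by
      rw [abs_div, abs_of_pos hlk, div_le_div_iff₀ hlk hl0]
      calc |x2| * l ≤ (C2 * (3 ^ (k + 1) * l ^ (k + 1))) * l := by
            gcongr
            refine f2.trans ?_
            gcongr
            exact hp (k + 1)
        _ = _ := by ring
    have b4 : 0 ≤ C3 * 3 ^ (k + 1) / l := by positivity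
    calc |GN N * ((k + 2) * (L - κ * l)) / l + (L - l) * x1 / l ^ (k + 2) + x2 / l ^ (k + 2)|
        ≤ |GN N * ((k + 2) * (L - κ * l)) / l| + |(L - l) * x1 / l ^ (k + 2)| +
          |x2 / l ^ (k + 2)| := abs_add_three _ _ _
      _ ≤ |GN N| * ((k + 2) * |L₀|) / l + 2 * (|L₀| + |κ - 1|) * C1 * 3 ^ k / l +
          C2 * 3 ^ (k + 1) / l := by linarith
      _ ≤ C3 * 3 ^ (k + 1) / l + |GN N| * ((k + 2) * |L₀|) / l +
          2 * (|L₀| + |κ - 1|) * C1 * 3 ^ k / l + C2 * 3 ^ (k + 1) / l := by linarith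
      _ = _ := by ring

theorem pf_MU3 (hMU1 : T_MU1) : T_MU3 := by
  intro P N κ L₀ hP hN _
  have hN0 : N ≠ 0 := by omega
  choose D hD h using fun k => mono_bound hMU1 hN0 κ L₀ k
  -- the coefficients
  have hc : ∀ k < 5, P.coeff k = 0 := fun k hk => by
    obtain ⟨Q, rfl⟩ := hP
    rw [Polynomial.coeff_X_pow_mul', if_neg (by omega)]
  obtain ⟨n, hn⟩ : ∃ n : ℕ, n = P.natDegree + 1 := ⟨_, rfl⟩
  have heval : ∀ x : ℝ, P.eval x = ∑ k ∈ Finset.range n, P.coeff k * x ^ k := fun x => by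
    rw [hn, Polynomial.eval_eq_sum_range]
  have hder : P.derivative.eval 1 = ∑ k ∈ Finset.range n, P.coeff k * k := by
    rw [Polynomial.derivative_eval, Polynomial.sum_over_range' P (by simp) n (by omega)]
    simp
  refine ⟨∑ k ∈ Finset.range n, |P.coeff k| * D (k - 2) + 1, ?_, fun M L hM hL => ?_⟩
  · have : 0 ≤ ∑ k ∈ Finset.range n, |P.coeff k| * D (k - 2) :=
      Finset.sum_nonneg fun k _ => mul_nonneg (abs_nonneg _) (hD _)
    linarith
  obtain ⟨hl, -⟩ := log_two_le hM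
  have hl0 : 0 < Real.log M := by linarith
  have hM0 : 0 < M := by linarith
  have hcm : ∀ m ∈ Finset.Icc 1 ⌊M⌋₊, cm P M N m / m = ∑ k ∈ Finset.range n,
      P.coeff k / Real.log M ^ k * (cN N m / m * lg k (M / m)) := by
    intro m hm
    obtain ⟨hm1, hm2⟩ := Finset.mem_Icc.1 hm
    have h3 : (m : ℝ) ≤ M := (Nat.le_floor_iff' (by omega)).1 hm2
    unfold cm cN lg
    by_cases hco : Nat.Coprime m N
    · rw [if_pos ⟨h3, hco⟩, if_pos hco, heval, Finset.mul_sum, Finset.sum_div]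
      refine Finset.sum_congr rfl fun k _ => ?_
      rw [div_pow]
      ring
    · rw [if_neg (fun h => hco h.2), if_neg hco]
      simp
  have hsum1 : ∑ m ∈ Finset.Icc 1 ⌊M⌋₊, cm P M N m / m =
      ∑ k ∈ Finset.range n, P.coeff k * (Lam (cN N) (lg k) M / Real.log M ^ k) := by
    rw [Finset.sum_congr rfl hcm, Finset.sum_comm]
    refine Finset.sum_congr rfl fun k _ => ?_
    rw [← Finset.mul_sum]
    unfold Lam
    ring
  have hsum2 : ∑ m ∈ Finset.Icc 1 ⌊M⌋₊, cm P M N m / m * (L - Real.log m) =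
      ∑ k ∈ Finset.range n, P.coeff k * (((L - Real.log M) * Lam (cN N) (lg k) M +
        Lam (cN N) (lg (k + 1)) M) / Real.log M ^ k) := by
    have h5 : ∀ m ∈ Finset.Icc 1 ⌊M⌋₊, cm P M N m / m * (L - Real.log m) =
        ∑ k ∈ Finset.range n, P.coeff k / Real.log M ^ k *
          ((L - Real.log M) * (cN N m / m * lg k (M / m)) +
            cN N m / m * lg (k + 1) (M / m)) := by
      intro m hm
      have hm1 := (Finset.mem_Icc.1 hm).1
      have hm0 : (m : ℝ) ≠ 0 := by exact_mod_cast (by omega : m ≠ 0)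
      rw [hcm m hm, Finset.sum_mul]
      refine Finset.sum_congr rfl fun k _ => ?_
      have h6 : Real.log (M / m) = Real.log M - Real.log m := Real.log_div hM0.ne' hm0
      unfold lg
      rw [pow_succ (Real.log (M / m)) k]
      have h7 : L - Real.log m = (L - Real.log M) + Real.log (M / m) := by rw [h6]; ring
      rw [h7]
      ring
    rw [Finset.sum_congr rfl h5, Finset.sum_comm]
    refine Finset.sum_congr rfl fun k _ => ?_
    rw [← Finset.mul_sum, Finset.sum_add_distrib, ← Finset.mul_sum]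
    unfold Lam
    ring
  have hfin : (∑ k ∈ Finset.range n, |P.coeff k| * D (k - 2)) / Real.log M ≤
      (∑ k ∈ Finset.range n, |P.coeff k| * D (k - 2) + 1) / Real.log M := by
    gcongr
    linarith
  constructor
  · rw [hsum1]
    refine le_trans ?_ hfin
    rw [Finset.sum_div]
    refine (Finset.abs_sum_le_sum_abs _ _).trans (Finset.sum_le_sum fun k _ => ?_)
    rw [abs_mul, mul_div_assoc]
    rcases lt_or_ge k 5 with hk | hk
    · rw [hc k hk]
      simp
    · obtain ⟨j, rfl⟩ : ∃ j, k = j + 2 := ⟨k - 2, by omega⟩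
      exact mul_le_mul_of_nonneg_left (h j M L hM hL).1 (abs_nonneg _)
  · have hG : ∏ p ∈ N.primeFactors, (1 - 1 / (p : ℝ))⁻¹ = GN N := rfl
    rw [hsum2, hG]
    have h1 : GN N * (P.eval 1 + κ * P.derivative.eval 1) =
        ∑ k ∈ Finset.range n, P.coeff k * (GN N * (1 + κ * k)) := by
      rw [heval 1, hder, Finset.mul_sum, ← Finset.sum_add_distrib, Finset.mul_sum]
      exact Finset.sum_congr rfl fun k _ => by ring
    rw [h1, ← Finset.sum_sub_distrib]
    refine le_trans ?_ hfin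
    rw [Finset.sum_div]
    refine (Finset.abs_sum_le_sum_abs _ _).trans (Finset.sum_le_sum fun k _ => ?_)
    rw [← mul_sub, abs_mul, mul_div_assoc]
    rcases lt_or_ge k 5 with hk | hk
    · rw [hc k hk]
      simp
    · obtain ⟨j, rfl⟩ : ∃ j, k = j + 2 := ⟨k - 2, by omega⟩
      have h2 := (h j M L hM hL).2
      refine mul_le_mul_of_nonneg_left ?_ (abs_nonneg _)
      push_cast
      exact h2

end Pool.Agent.H63.CN
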