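import Pool.Agent.H63.CN.Conv

/-!
# Module BK: the smoothed sum with coprimality
-/

set_option autoImplicit false

open MeasureTheory Set Filter Topology

namespace Pool.Agent.H63.CN

open Pool.Agent.H31.CN

theorem pf_BK (hMU2 : T_MU2) (hHQ : T_HQ) : T_BK := by
  intro k hk
  obtain ⟨e, rfl⟩ : ∃ e, k = e + 3 := ⟨k - 3, by omega⟩
  obtain ⟨C1, hC1, h1⟩ := hMU2 (e + 3) hk
  obtain ⟨C2, hC2, h2⟩ := hHQ
  obtain ⟨A, hA⟩ : ∃ A : ℝ, A = ((e + 3 : ℕ) : ℝ) * (((e + 3 : ℕ) : ℝ) - 1) := ⟨_, rfl⟩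
  have h3 : ∀ y : ℝ, 1 ≤ y → |Lam m2 (lg (e + 3)) y - A * lg (e + 1) y| ≤
      C1 * (1 + Real.log y) ^ e := by
    intro y hy
    have := h1 y hy
    rw [hA]
    exact this
  refine ⟨(C1 + |A| * (4 * (e + 1))) * C2, by positivity, fun q y hq h2q hy => ?_⟩
  obtain ⟨-, -, -, h, hconv, hs, hsb, h0, hsum⟩ := h2 q hq h2q
  have hmain := conv_asymp hC1.le h3 h0 hs hy
  have hB : Bk (e + 3) q y = Lam (cv m2 h) (lg (e + 3)) y := by
    unfold Bk Lam
    rw [Finset.sum_filter]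
    refine Finset.sum_congr rfl fun n hn => ?_
    have h5 := hconv n (Finset.mem_Icc.1 hn).1
    have h6 : cv m2 h n = if Nat.Coprime n q then mr n * 2 ^ n.primeFactors.card else 0 := by
      rw [h5]
      rfl
    rw [h6]
    unfold lg
    split_ifs with hc
    · rfl
    · simp
  rw [hsum] at hmain
  have h4 : Hq q * (((e + 3 : ℕ) : ℝ) * (((e + 3 : ℕ) : ℝ) - 1)) * Real.log y ^ (e + 3 - 2) =
      Hq q * (A * lg (e + 1) y) := by
    rw [hA]
    unfold lg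
    have : e + 3 - 2 = e + 1 := by omega
    rw [this]
    ring
  rw [hB, h4]
  refine hmain.trans ?_
  have hL := Real.log_nonneg hy
  have h7 : e + 3 - 3 = e := by omega
  rw [h7, mul_assoc (C1 + |A| * (4 * (e + 1))) C2 (Ef q)]
  gcongr

end Pool.Agent.H63.CN
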