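import Pool.Agent.H63.CN.MU1

/-!
# Smoothed sums of a convolution with a small factor
-/

set_option autoImplicit false

open MeasureTheory Set Filter Topology

namespace Pool.Agent.H63.CN

open Pool.Agent.H31.CN

lemma cv_comm (a b : ℕ → ℝ) (n : ℕ) : cv a b n = cv b a n := by
  unfold cv
  conv_lhs => rw [← Nat.map_swap_divisorsAntidiagonal, Finset.sum_map]
  refine Finset.sum_congr rfl fun x _ => ?_
  simp [mul_comm]

lemma pow_diff {u v : ℝ} (hu : 0 ≤ u) (huv : u ≤ v) (e : ℕ) :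
    v ^ (e + 1) - u ^ (e + 1) ≤ (e + 1) * (v - u) * v ^ e := by
  induction e with
  | zero => simp
  | succ e ih =>
    have hv : 0 ≤ v := hu.trans huv
    have h1 : u ^ (e + 1) ≤ v ^ (e + 1) := pow_le_pow_left₀ hu huv _
    have h2 : v ^ (e + 1 + 1) - u ^ (e + 1 + 1) =
        v * (v ^ (e + 1) - u ^ (e + 1)) + (v - u) * u ^ (e + 1) := by ring
    rw [h2]
    have h3 : v * (v ^ (e + 1) - u ^ (e + 1)) ≤ v * ((e + 1) * (v - u) * v ^ e) :=
      mul_le_mul_of_nonneg_left ih hv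
    have h4 : (v - u) * u ^ (e + 1) ≤ (v - u) * v ^ (e + 1) :=
      mul_le_mul_of_nonneg_left h1 (by linarith)
    have h5 : v * ((e + 1) * (v - u) * v ^ e) + (v - u) * v ^ (e + 1) =
        (((e + 1 : ℕ) : ℝ) + 1) * (v - u) * v ^ (e + 1) := by
      push_cast
      ring
    linarith

lemma phi_bound {y : ℝ} (hy : 1 ≤ y) (e b : ℕ) (hb : 1 ≤ b) :
    |(if b ∈ Finset.Icc 1 ⌊y⌋₊ then lg (e + 1) (y / b) else 0) - lg (e + 1) y| ≤
      (e + 1) * Real.log b * (1 + Real.log y) ^ e := by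
  have hy0 : 0 < y := by linarith
  have hL := Real.log_nonneg hy
  have hbR : (1 : ℝ) ≤ b := by exact_mod_cast hb
  have hb0 : (0 : ℝ) < b := by linarith
  have hlb := Real.log_nonneg hbR
  have hpow : Real.log y ^ e ≤ (1 + Real.log y) ^ e := pow_le_pow_left₀ hL (by linarith) _
  unfold lg
  split_ifs with h
  · obtain ⟨-, h2⟩ := Finset.mem_Icc.1 h
    have h3 : (b : ℝ) ≤ y := (Nat.le_floor_iff' (by omega)).1 h2
    have h4 : 1 ≤ y / b := by rw [le_div_iff₀ hb0, one_mul]; exact h3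
    have h5 := Real.log_nonneg h4
    have h6 : Real.log (y / b) = Real.log y - Real.log b := Real.log_div hy0.ne' hb0.ne'
    have h7 := pow_diff h5 (by linarith : Real.log (y / b) ≤ Real.log y) e
    have h8 : Real.log (y / b) ^ (e + 1) ≤ Real.log y ^ (e + 1) :=
      pow_le_pow_left₀ h5 (by linarith) _
    rw [abs_sub_comm, abs_of_nonneg (by linarith)]
    refine h7.trans ?_
    rw [show Real.log y - Real.log (y / b) = Real.log b by linarith]
    gcongr
  · have h3 : y ≤ b := by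
      by_contra hcon
      push Not at hcon
      apply h
      rw [Finset.mem_Icc]
      exact ⟨hb, (Nat.le_floor_iff' (by omega)).2 hcon.le⟩
    have h4 : Real.log y ≤ Real.log b := Real.log_le_log hy0 h3
    rw [zero_sub, abs_neg, abs_of_nonneg (by positivity), pow_succ]
    calc Real.log y ^ e * Real.log y ≤ (1 + Real.log y) ^ e * Real.log b := by gcongr
      _ = 1 * Real.log b * (1 + Real.log y) ^ e := by ring
      _ ≤ _ := by
          gcongr
          have : (0 : ℝ) ≤ e := Nat.cast_nonneg e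
          linarith

lemma log_div_le {b : ℕ} (hb : 1 ≤ b) :
    Real.log b / b ≤ 4 * (b : ℝ) ^ (-(3 / 4) : ℝ) := by
  have hbR : (1 : ℝ) ≤ b := by exact_mod_cast hb
  have hb0 : (0 : ℝ) < b := by linarith
  have h1 := Real.log_le_rpow_div hb0.le (show (0 : ℝ) < 1 / 4 by norm_num)
  rw [div_le_iff₀ hb0]
  have h2 : 4 * (b : ℝ) ^ (-(3 / 4) : ℝ) * b = (b : ℝ) ^ (1 / 4 : ℝ) / (1 / 4) := by
    have h3 : (b : ℝ) ^ (-(3 / 4) : ℝ) * b = (b : ℝ) ^ (1 / 4 : ℝ) := by
      nth_rewrite 2 [← Real.rpow_one (b : ℝ)]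
      rw [← Real.rpow_add hb0]
      norm_num
    rw [mul_assoc, h3]
    ring
  rw [h2]
  exact h1

lemma inv_le_rpow {b : ℕ} (hb : 1 ≤ b) : 1 / (b : ℝ) ≤ (b : ℝ) ^ (-(3 / 4) : ℝ) := by
  have hbR : (1 : ℝ) ≤ b := by exact_mod_cast hb
  rw [one_div, ← Real.rpow_neg_one]
  exact Real.rpow_le_rpow_of_exponent_le hbR (by norm_num)

theorem conv_asymp {a h : ℕ → ℝ} {K e : ℕ} {A C : ℝ} (hC : 0 ≤ C)
    (ha : ∀ y : ℝ, 1 ≤ y → |Lam a (lg K) y - A * lg (e + 1) y| ≤ C * (1 + Real.log y) ^ e)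
    (h0 : h 0 = 0) (hs : Summable (fun b : ℕ => |h b| * (b : ℝ) ^ (-(3 / 4) : ℝ))) {y : ℝ}
    (hy : 1 ≤ y) :
    |Lam (cv a h) (lg K) y - (∑' b : ℕ, h b / b) * (A * lg (e + 1) y)| ≤
      (C + |A| * (4 * (e + 1))) * (∑' b : ℕ, |h b| * (b : ℝ) ^ (-(3 / 4) : ℝ)) *
        (1 + Real.log y) ^ e := by
  have hy0 : 0 < y := by linarith
  have hL := Real.log_nonneg hy
  obtain ⟨S, hS⟩ : ∃ S : ℝ, S = ∑' b : ℕ, |h b| * (b : ℝ) ^ (-(3 / 4) : ℝ) := ⟨_, rfl⟩
  have hP : 0 ≤ (1 + Real.log y) ^ e := by positivity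
  -- summability of `h b / b`
  have hsum : Summable (fun b : ℕ => h b / b) := by
    refine Summable.of_norm_bounded hs fun b => ?_
    rcases Nat.eq_zero_or_pos b with rfl | hb
    · rw [h0]
      simp
    · have hb0 : (0 : ℝ) < b := by exact_mod_cast hb
      rw [Real.norm_eq_abs, abs_div, abs_of_pos hb0, div_eq_mul_one_div]
      exact mul_le_mul_of_nonneg_left (inv_le_rpow hb) (abs_nonneg _)
  -- first part
  obtain ⟨ε, hε⟩ : ∃ ε : ℝ → ℝ, ε = fun x => Lam a (lg K) x - A * lg (e + 1) x := ⟨_, rfl⟩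
  have h1 : Lam (cv a h) (lg K) y = A * Lam h (lg (e + 1)) y + Lam h ε y := by
    have h2 : Lam (cv a h) (lg K) y = Lam (cv h a) (lg K) y := by
      unfold Lam
      exact Finset.sum_congr rfl fun n _ => by rw [cv_comm]
    rw [h2, ← Lam_Lam]
    have h3 : Lam a (lg K) = fun x => A * lg (e + 1) x + ε x := by
      funext x
      rw [hε]
      ring
    rw [h3, Lam_add, Lam_smul]
  -- the error term
  have h2 : |Lam h ε y| ≤ C * S * (1 + Real.log y) ^ e := by
    unfold Lam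
    calc |∑ n ∈ Finset.Icc 1 ⌊y⌋₊, h n / n * ε (y / n)|
        ≤ ∑ n ∈ Finset.Icc 1 ⌊y⌋₊, |h n / n * ε (y / n)| := Finset.abs_sum_le_sum_abs _ _
      _ ≤ ∑ n ∈ Finset.Icc 1 ⌊y⌋₊, C * (1 + Real.log y) ^ e *
          (|h n| * (n : ℝ) ^ (-(3 / 4) : ℝ)) := by
          refine Finset.sum_le_sum fun n hn => ?_
          obtain ⟨hn1, hn2⟩ := Finset.mem_Icc.1 hn
          have hn0 : (0 : ℝ) < n := by exact_mod_cast hn1
          have hn1' : (1 : ℝ) ≤ n := by exact_mod_cast hn1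
          have h3 : (n : ℝ) ≤ y := (Nat.le_floor_iff' (by omega)).1 hn2
          have h4 : 1 ≤ y / n := by rw [le_div_iff₀ hn0, one_mul]; exact h3
          have h5 : y / n ≤ y := div_le_self hy0.le hn1'
          have h6 : |ε (y / n)| ≤ C * (1 + Real.log y) ^ e := by
            rw [hε]
            refine (ha _ h4).trans ?_
            have h7 := Real.log_nonneg h4
            have h8 := Real.log_le_log (by linarith) h5
            gcongr
          rw [abs_mul, abs_div, abs_of_pos hn0, mul_comm]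
          have h9 : |h n| / n ≤ |h n| * (n : ℝ) ^ (-(3 / 4) : ℝ) := by
            rw [div_eq_mul_one_div]
            exact mul_le_mul_of_nonneg_left (inv_le_rpow hn1) (abs_nonneg _)
          exact mul_le_mul h6 h9 (by positivity) (by positivity)
      _ = C * (1 + Real.log y) ^ e * ∑ n ∈ Finset.Icc 1 ⌊y⌋₊,
          (|h n| * (n : ℝ) ^ (-(3 / 4) : ℝ)) := by rw [Finset.mul_sum]
      _ ≤ C * (1 + Real.log y) ^ e * S := by
          rw [hS]
          refine mul_le_mul_of_nonneg_left ?_ (by positivity)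
          exact hs.sum_le_tsum _ fun b _ => by positivity
      _ = _ := by ring
  -- the main term
  have h3 : |Lam h (lg (e + 1)) y - (∑' b : ℕ, h b / b) * lg (e + 1) y| ≤
      4 * (e + 1) * (1 + Real.log y) ^ e * S := by
    have h4 : Lam h (lg (e + 1)) y = ∑' b : ℕ,
        h b / b * (if b ∈ Finset.Icc 1 ⌊y⌋₊ then lg (e + 1) (y / b) else 0) := by
      rw [tsum_eq_sum (s := Finset.Icc 1 ⌊y⌋₊)]
      · unfold Lam
        exact Finset.sum_congr rfl fun b hb => by rw [if_pos hb]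
      · intro b hb
        rw [if_neg hb, mul_zero]
    have hs1 : Summable (fun b : ℕ =>
        h b / b * (if b ∈ Finset.Icc 1 ⌊y⌋₊ then lg (e + 1) (y / b) else 0)) := by
      refine summable_of_ne_finset_zero (s := Finset.Icc 1 ⌊y⌋₊) fun b hb => ?_
      rw [if_neg hb, mul_zero]
    have h5 : Lam h (lg (e + 1)) y - (∑' b : ℕ, h b / b) * lg (e + 1) y =
        ∑' b : ℕ, h b / b * ((if b ∈ Finset.Icc 1 ⌊y⌋₊ then lg (e + 1) (y / b) else 0) -
          lg (e + 1) y) := by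
      rw [h4, ← tsum_mul_right, ← hs1.tsum_sub (hsum.mul_right _)]
      exact tsum_congr fun b => by ring
    rw [h5, ← Real.norm_eq_abs]
    have hg : HasSum (fun b : ℕ => 4 * (e + 1) * (1 + Real.log y) ^ e *
        (|h b| * (b : ℝ) ^ (-(3 / 4) : ℝ))) (4 * (e + 1) * (1 + Real.log y) ^ e * S) := by
      rw [hS]
      exact hs.hasSum.mul_left _
    refine tsum_of_norm_bounded hg fun b => ?_
    rcases Nat.eq_zero_or_pos b with rfl | hb
    · rw [h0]
      simp
    · have hb0 : (0 : ℝ) < b := by exact_mod_cast hb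
      rw [Real.norm_eq_abs, abs_mul, abs_div, abs_of_pos hb0]
      calc |h b| / b * |(if b ∈ Finset.Icc 1 ⌊y⌋₊ then lg (e + 1) (y / b) else 0) -
            lg (e + 1) y|
          ≤ |h b| / b * ((e + 1) * Real.log b * (1 + Real.log y) ^ e) :=
            mul_le_mul_of_nonneg_left (phi_bound hy e b hb) (by positivity)
        _ = (e + 1) * (1 + Real.log y) ^ e * |h b| * (Real.log b / b) := by ring
        _ ≤ (e + 1) * (1 + Real.log y) ^ e * |h b| * (4 * (b : ℝ) ^ (-(3 / 4) : ℝ)) :=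
            mul_le_mul_of_nonneg_left (log_div_le hb) (by positivity)
        _ = _ := by ring
  have h6 : Lam (cv a h) (lg K) y - (∑' b : ℕ, h b / b) * (A * lg (e + 1) y) =
      A * (Lam h (lg (e + 1)) y - (∑' b : ℕ, h b / b) * lg (e + 1) y) + Lam h ε y := by
    rw [h1]
    ring
  rw [h6, ← hS]
  calc |A * (Lam h (lg (e + 1)) y - (∑' b : ℕ, h b / b) * lg (e + 1) y) + Lam h ε y|
      ≤ |A * (Lam h (lg (e + 1)) y - (∑' b : ℕ, h b / b) * lg (e + 1) y)| + |Lam h ε y| :=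
        abs_add_le _ _
    _ = |A| * |Lam h (lg (e + 1)) y - (∑' b : ℕ, h b / b) * lg (e + 1) y| + |Lam h ε y| := by
        rw [abs_mul]
    _ ≤ |A| * (4 * (e + 1) * (1 + Real.log y) ^ e * S) + C * S * (1 + Real.log y) ^ e := by
        gcongr
    _ = _ := by ring

end Pool.Agent.H63.CN
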