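import Pool.Agent.H63.CN.MU1

/-!
# Module MU2: smoothed sums of the convolution square of the Möbius function
-/

set_option autoImplicit false

open MeasureTheory Set Filter Topology

namespace Pool.Agent.H63.CN

open Pool.Agent.H31.CN

lemma Lam_m2 (f : ℝ → ℝ) (y : ℝ) : Lam m2 f y = Lam mr (Lam mr f) y := by
  rw [Lam_Lam]
  rfl

lemma B_rec (k : ℕ) : ∃ (c : ℕ → ℝ) (C : ℝ) (ε : ℝ → ℝ), 0 ≤ C ∧
    (∀ y, 1 ≤ y → |ε y| ≤ C * (1 + Real.log y)) ∧
    ∀ y : ℝ, 1 ≤ y → Lam mr (lg k) y = Lam m2 (lg (k + 1)) y / (k + 1) +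
      ∑ j ∈ Finset.range (k + 1), c j * Lam m2 (lg j) y + ε y := by
  obtain ⟨c, C, ε, hC, hε, h⟩ := M_rec k
  refine ⟨c, C, Lam mr ε, hC, fun y hy => Lam_bound_const abs_mr_le hy hC hε, fun y hy => ?_⟩
  have h1 : Lam mr (lg k) y = Lam mr (fun x => ((1 / ((k : ℝ) + 1)) * Lam mr (lg (k + 1)) x +
      ∑ j ∈ Finset.range (k + 1), c j * Lam mr (lg j) x) + ε x) y := by
    refine Lam_congr fun x hx => ?_
    rw [h x hx]
    ring
  rw [h1, Lam_add, Lam_add, Lam_smul, Lam_sum, ← Lam_m2]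
  have h2 : ∀ j ∈ Finset.range (k + 1), Lam mr (fun x => c j * Lam mr (lg j) x) y =
      c j * Lam m2 (lg j) y := by
    intro j _
    rw [Lam_m2]
    exact Lam_smul mr (c j) (Lam mr (lg j)) y
  rw [Finset.sum_congr rfl h2]
  ring

/-- functions of size at most the logarithm -/
def LogB (f : ℝ → ℝ) : Prop := ∃ C : ℝ, 0 ≤ C ∧ ∀ y : ℝ, 1 ≤ y → |f y| ≤ C * (1 + Real.log y)

lemma sum_logB {n : ℕ} {f : ℕ → ℝ → ℝ} (c : ℕ → ℝ) (h : ∀ j < n, LogB (f j)) :
    LogB (fun y => ∑ j ∈ Finset.range n, c j * f j y) := by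
  induction n with
  | zero => exact ⟨0, le_rfl, fun y _ => by simp⟩
  | succ n ih =>
    obtain ⟨C1, hC1, h1⟩ := ih fun j hj => h j (by omega)
    obtain ⟨C2, hC2, h2⟩ := h n (by omega)
    refine ⟨C1 + |c n| * C2, by positivity, fun y hy => ?_⟩
    simp only [Finset.sum_range_succ]
    refine (abs_add_le _ _).trans ?_
    rw [add_mul]
    refine add_le_add (h1 y hy) ?_
    rw [abs_mul, mul_assoc]
    gcongr
    exact h2 y hy

/-- the remainder in `B_rec` -/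
lemma B_rem {k : ℕ} (h : ∀ j < k + 1, LogB (Lam m2 (lg j))) : ∃ R : ℝ → ℝ, LogB R ∧
    ∀ y : ℝ, 1 ≤ y → Lam m2 (lg (k + 1)) y = (k + 1) * Lam mr (lg k) y + R y := by
  obtain ⟨c, C, ε, hC, hε, h1⟩ := B_rec k
  obtain ⟨C2, hC2, h2⟩ := sum_logB c h
  refine ⟨fun y => -((k + 1) * (∑ j ∈ Finset.range (k + 1), c j * Lam m2 (lg j) y + ε y)),
    ⟨(k + 1) * (C2 + C), by positivity, fun y hy => ?_⟩, fun y hy => ?_⟩
  · have hk : (0 : ℝ) < (k : ℝ) + 1 := by positivity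
    simp only
    rw [abs_neg, abs_mul, abs_of_pos hk, mul_assoc]
    refine mul_le_mul_of_nonneg_left ?_ hk.le
    rw [add_mul]
    exact (abs_add_le _ _).trans (add_le_add (h2 y hy) (hε y hy))
  · rw [h1 y hy]
    have : ((k : ℝ) + 1) ≠ 0 := by positivity
    field_simp
    ring

lemma logB_add {f g : ℝ → ℝ} (hf : LogB f) (hg : LogB g) : LogB (fun y => f y + g y) := by
  obtain ⟨C1, hC1, h1⟩ := hf
  obtain ⟨C2, hC2, h2⟩ := hg
  refine ⟨C1 + C2, by positivity, fun y hy => ?_⟩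
  rw [add_mul]
  exact (abs_add_le _ _).trans (add_le_add (h1 y hy) (h2 y hy))

lemma logB_smul {f : ℝ → ℝ} (c : ℝ) (hf : LogB f) : LogB (fun y => c * f y) := by
  obtain ⟨C1, hC1, h1⟩ := hf
  refine ⟨|c| * C1, by positivity, fun y hy => ?_⟩
  rw [abs_mul, mul_assoc]
  gcongr
  exact h1 y hy

lemma logB_congr {f g : ℝ → ℝ} (hf : LogB f) (h : ∀ y : ℝ, 1 ≤ y → g y = f y) : LogB g := by
  obtain ⟨C1, hC1, h1⟩ := hf
  exact ⟨C1, hC1, fun y hy => by rw [h y hy]; exact h1 y hy⟩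

lemma logB_of_bound {f : ℝ → ℝ} {C : ℝ} (hC : 0 ≤ C) (h : ∀ y : ℝ, 1 ≤ y → |f y| ≤ C) :
    LogB f := by
  refine ⟨C, hC, fun y hy => (h y hy).trans ?_⟩
  have := one_le_log' hy
  nlinarith

lemma logB_lg1 : LogB (lg 1) := by
  refine ⟨1, by norm_num, fun y hy => ?_⟩
  have := Real.log_nonneg hy
  unfold lg
  rw [pow_one, abs_of_nonneg this]
  linarith

lemma logB_M0 : LogB (Lam mr (lg 0)) := logB_of_bound (by norm_num) fun _ hy => M0_bound hy

lemma logB_M1 : LogB (Lam mr (lg 1)) := by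
  obtain ⟨C, hC, h⟩ := M1_bound
  exact logB_of_bound hC h

lemma logB_M2 : LogB (Lam mr (lg 2)) := by
  obtain ⟨C, hC, h⟩ := M_asymp 0
  have h1 : LogB (fun y => Lam mr (lg 2) y - 2 * lg 1 y) := by
    refine logB_of_bound hC.le fun y hy => ?_
    have h2 := h y hy
    simpa using h2
  refine logB_congr (logB_add h1 (logB_smul 2 logB_lg1)) fun y _ => by ring

lemma logB_B : ∀ j < 4, LogB (Lam m2 (lg j)) := by
  have b0 : LogB (Lam m2 (lg 0)) := by
    refine ⟨2, by norm_num, fun y hy => ?_⟩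
    rw [Lam_m2]
    exact Lam_bound_const abs_mr_le hy (by norm_num) fun x hx => M0_bound hx
  have b1 : LogB (Lam m2 (lg 1)) := by
    obtain ⟨R, hR, h⟩ := B_rem (k := 0) (fun j hj => by
      have : j = 0 := by omega
      rw [this]; exact b0)
    exact logB_congr (logB_add (logB_smul _ logB_M0) hR) h
  have b2 : LogB (Lam m2 (lg 2)) := by
    obtain ⟨R, hR, h⟩ := B_rem (k := 1) (fun j hj => by
      have : j = 0 ∨ j = 1 := by omega
      rcases this with rfl | rfl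
      · exact b0
      · exact b1)
    exact logB_congr (logB_add (logB_smul _ logB_M1) hR) h
  have b3 : LogB (Lam m2 (lg 3)) := by
    obtain ⟨R, hR, h⟩ := B_rem (k := 2) (fun j hj => by
      have : j = 0 ∨ j = 1 ∨ j = 2 := by omega
      rcases this with rfl | rfl | rfl
      · exact b0
      · exact b1
      · exact b2)
    exact logB_congr (logB_add (logB_smul _ logB_M2) hR) h
  intro j hj
  have : j = 0 ∨ j = 1 ∨ j = 2 ∨ j = 3 := by omega
  rcases this with rfl | rfl | rfl | rfl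
  · exact b0
  · exact b1
  · exact b2
  · exact b3

lemma B_asymp (k : ℕ) : ∃ C : ℝ, 0 < C ∧ ∀ y : ℝ, 1 ≤ y →
    |Lam m2 (lg (k + 4)) y - ((k + 4) * (k + 3)) * lg (k + 2) y| ≤
      C * (1 + Real.log y) ^ (k + 2 - 1) := by
  induction k with
  | zero =>
    obtain ⟨R, ⟨C1, hC1, hR⟩, h⟩ := B_rem (k := 3) logB_B
    obtain ⟨C, hC, h3⟩ := M_asymp 1
    refine ⟨4 * C + C1, by positivity, fun y hy => ?_⟩
    have h1 := h y hy
    have h2 := h3 y hy
    have h4 : Lam m2 (lg (0 + 4)) y - (((0 : ℕ) + 4) * ((0 : ℕ) + 3)) * lg (0 + 2) y =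
        4 * (Lam mr (lg 3) y - 3 * lg 2 y) + R y := by
      rw [show 0 + 4 = 3 + 1 from rfl, h1]
      push_cast
      ring
    rw [h4]
    have h5 : |Lam mr (lg 3) y - 3 * lg 2 y| ≤ C * (1 + Real.log y) := by
      have h6 := h2
      norm_num at h6
      exact h6
    simp only [zero_add, Nat.reduceSub, pow_one]
    calc |4 * (Lam mr (lg 3) y - 3 * lg 2 y) + R y|
        ≤ |4 * (Lam mr (lg 3) y - 3 * lg 2 y)| + |R y| := abs_add_le _ _
      _ = 4 * |Lam mr (lg 3) y - 3 * lg 2 y| + |R y| := by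
          rw [abs_mul, abs_of_pos (by norm_num : (0 : ℝ) < 4)]
      _ ≤ 4 * (C * (1 + Real.log y)) + C1 * (1 + Real.log y) := by
          gcongr
          exact hR y hy
      _ = _ := by ring
  | succ k ih =>
    obtain ⟨C, hC, h⟩ := ih
    have h1 := J_step (A := ((k : ℝ) + 4) * (k + 3)) (e := k + 2) h (by omega) hC.le
    refine ⟨((k + 4 : ℕ) + 1) * C, by positivity, fun y hy => ?_⟩
    have h2 := h1 y hy
    have h3 : (((k + 4 : ℕ) : ℝ) + 1) * (((k : ℝ) + 4) * (k + 3)) / (((k + 2 : ℕ) : ℝ) + 1) =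
        (((k + 1 : ℕ) : ℝ) + 4) * (((k + 1 : ℕ) : ℝ) + 3) := by
      push_cast
      field_simp
      ring
    rw [h3] at h2
    exact h2

theorem pf_MU2 : T_MU2 := by
  intro k hk
  obtain ⟨j, rfl⟩ : ∃ j, k = j + 4 := ⟨k - 4, by omega⟩
  obtain ⟨C, hC, h⟩ := B_asymp j
  refine ⟨C, hC, fun y hy => ?_⟩
  have h1 := h y hy
  unfold Lam lg at h1
  have h2 : j + 4 - 3 = j + 2 - 1 := by omega
  have h3 : j + 4 - 2 = j + 2 := by omega
  have h4 : ((j + 4 : ℕ) : ℝ) * (((j + 4 : ℕ) : ℝ) - 1) = ((j : ℝ) + 4) * (j + 3) := by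
    push_cast
    ring
  rw [h2, h3, h4]
  exact h1

end Pool.Agent.H63.CN
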